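import Pool.Agent.P.MP_7ffab6_lc.SD.Iface

/-! Step AVG. -/

set_option autoImplicit false
set_option linter.unusedSectionVars false

namespace Pool.Agent.P.MP_7ffab6_lc.SD

open Finset Filter

namespace AVGx

theorem sum_xor {α : Type} [Fintype α] [DecidableEq α] (u : α → Bool) (f : (α → Bool) → ℝ) :
    ∑ b : α → Bool, f (fun p => xor (b p) (u p)) = ∑ b, f b :=
  Fintype.sum_bijective (fun (b : α → Bool) p => xor (b p) (u p))
    (Function.Involutive.bijective fun b => funext fun p => by simp) _ _ fun _ => rfl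

theorem fib {n m q : ℕ} (g : Edge n → Fin m) (t : Fin m → Fin q) (f : (Edge n → Bool) → ℝ) :
    (Fintype.card (Edge n → Bool) : ℝ) * ∑ b, f (pt g b t) =
      Fintype.card (Edge n × Fin q → Bool) * ∑ x, f x := by
  have h1 : ∀ u : Edge n → Bool, ∑ b, f (pt g b t) =
      ∑ b : Edge n × Fin q → Bool, f (fun e => xor (pt g b t e) (u e)) := fun u =>
    (sum_xor (fun p : Edge n × Fin q => u p.1) fun b => f (pt g b t)).symm
  have h2 : ∀ b : Edge n × Fin q → Bool, ∑ x, f x =
      ∑ u : Edge n → Bool, f (fun e => xor (pt g b t e) (u e)) := fun b => by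
    simpa only [Bool.xor_comm] using (sum_xor (pt g b t) f).symm
  rw [← nsmul_eq_mul, ← nsmul_eq_mul, ← card_univ, ← card_univ, ← sum_const, ← sum_const,
    sum_congr rfl fun u _ => h1 u, sum_congr rfl fun b _ => h2 b, sum_comm]

open Classical in
theorem nc {α : Type} [Fintype α] (S : Set α) :
    (S.ncard : ℝ) = ∑ a, if a ∈ S then (1 : ℝ) else 0 := by
  rw [sum_boole, ← Set.ncard_coe_finset]
  congr 2
  ext a
  simp

end AVGx

open Classical in
theorem p_AVG :
    S_AVG := by
  intro n m q g E Bad η δ hq hη h1 h2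
  have c1 : (Fintype.card (Edge n × Fin q → Bool) : ℝ) = 2 ^ Fintype.card (Edge n × Fin q) := by
    rw [Fintype.card_fun, Fintype.card_bool]
    push_cast
    rfl
  have c2 : (Fintype.card (Fin m → Fin q) : ℝ) = (q : ℝ) ^ m := by simp
  have p1 : (0 : ℝ) < Fintype.card (Edge n → Bool) := by exact_mod_cast Fintype.card_pos
  have p2 : (0 : ℝ) < (q : ℝ) ^ m * 2 ^ Fintype.card (Edge n × Fin q) := by positivity
  have k1 : ∀ b, ∑ t : Fin m → Fin q, (if pt g b t ∈ E then (1 : ℝ) else 0) ≤
      (η + if b ∈ Bad then 1 else 0) * (q : ℝ) ^ m := fun b => by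
    split_ifs with hb
    · refine (sum_le_card_nsmul _ _ 1 fun t _ => by split_ifs <;> norm_num).trans ?_
      rw [card_univ, nsmul_eq_mul, c2]
      nlinarith [pow_pos (show (0 : ℝ) < q by exact_mod_cast hq) m]
    · have := h1 b hb
      rw [AVGx.nc] at this
      rw [add_zero]
      convert this using 3
      rfl
  have k2 := sum_le_sum fun b (_ : b ∈ univ) => k1 b
  rw [sum_comm, ← sum_mul, sum_add_distrib, sum_const, card_univ, nsmul_eq_mul, c1] at k2
  have k3 := mul_le_mul_of_nonneg_left k2 p1.le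
  rw [mul_sum, sum_congr rfl fun t _ => AVGx.fib g t fun x => if x ∈ E then (1 : ℝ) else 0,
    sum_const, card_univ, nsmul_eq_mul, c1, c2, ← AVGx.nc, ← AVGx.nc] at k3
  rw [div_le_iff₀ p1]
  refine le_of_mul_le_mul_left ?_ p2
  have k4 := mul_le_mul_of_nonneg_left h2
    (show (0 : ℝ) ≤ Fintype.card (Edge n → Bool) * (q : ℝ) ^ m by positivity)
  nlinarith

end Pool.Agent.P.MP_7ffab6_lc.SD
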