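import Pool.Agent.P.MP_7ffab6_lc.SD.Iface

/-! Step BASE. -/

set_option autoImplicit false
set_option linter.unusedSectionVars false

namespace Pool.Agent.P.MP_7ffab6_lc.SD

open Finset Filter

namespace BASEx

variable {n m q : ℕ}

/-- the samples of the group `γ` that are one on all edges of the group inside `T` -/
def ok (g : Edge n → Fin m) (b : Edge n × Fin q → Bool) (T : Finset (Fin n)) (γ : Fin m) :
    Finset (Fin q) :=
  univ.filter fun j => ∀ e ∈ ein T, g e = γ → b (e, j) = true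

/-- the pairs forced to be one by the sets `S` -/
def fr (g : Edge n → Fin m) (θ : Finset (Fin n) × (Fin m → Finset (Fin q))) :
    Finset (Edge n × Fin q) :=
  (ein θ.1).biUnion fun e => (θ.2 (g e)).image fun j => (e, j)

lemma card_fr (g : Edge n → Fin m) (θ : Finset (Fin n) × (Fin m → Finset (Fin q))) :
    (fr g θ).card = ∑ e ∈ ein θ.1, (θ.2 (g e)).card := by
  unfold fr
  rw [card_biUnion]
  · exact sum_congr rfl fun e _ => card_image_of_injective _ fun j j' h => (Prod.ext_iff.1 h).2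
  · intro e _ e' _ hne
    refine disjoint_left.2 fun p hp hp' => hne ?_
    obtain ⟨j, _, rfl⟩ := mem_image.1 hp
    obtain ⟨j', _, h⟩ := mem_image.1 hp'
    exact (Prod.ext_iff.1 h).1.symm

lemma on_fr (g : Edge n → Fin m) (b : Edge n × Fin q → Bool) (T : Finset (Fin n)) :
    On b (fr g (T, ok g b T)) := by
  intro p hp
  obtain ⟨e, he, hp⟩ := mem_biUnion.1 hp
  obtain ⟨j, hj, rfl⟩ := mem_image.1 hp
  exact (mem_filter.1 hj).2 e he rfl

lemma ncard_cl (g : Edge n → Fin m) (b : Edge n × Fin q → Bool) (T : Finset (Fin n)) :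
    Set.ncard {t : Fin m → Fin q | Cl (pt g b t) T} = ∏ γ, (ok g b T γ).card := by
  have h : {t : Fin m → Fin q | Cl (pt g b t) T} = ↑(Fintype.piFinset (ok g b T)) := by
    ext t
    simp only [Set.mem_ofPred_eq, mem_coe, Fintype.mem_piFinset, ok, mem_filter, mem_univ,
      true_and, Cl, pt]
    constructor
    · rintro h γ e he rfl
      exact h e he
    · intro h e he
      exact h (g e) e he rfl
  rw [h, Set.ncard_coe_finset, Fintype.card_piFinset]

lemma prod_le (S : Fin m → Finset (Fin q)) :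
    ((∏ γ, (S γ).card : ℕ) : ℝ) ≤
      (1 / 2 : ℝ) ^ (univ.filter fun γ => 2 * (S γ).card ≤ q).card * (q : ℝ) ^ m := by
  have h1 : ((∏ γ, (S γ).card : ℕ) : ℝ) ≤
      ∏ γ : Fin m, ((if 2 * (S γ).card ≤ q then (1 / 2 : ℝ) else 1) * (q : ℝ)) := by
    rw [Nat.cast_prod]
    refine prod_le_prod (fun γ _ => Nat.cast_nonneg _) fun γ _ => ?_
    split_ifs with h
    · have : (2 : ℝ) * (S γ).card ≤ q := by exact_mod_cast h
      linarith
    · have : (S γ).card ≤ q := by simpa using card_le_univ (S γ)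
      rw [one_mul]
      exact_mod_cast this
  refine h1.trans (le_of_eq ?_)
  rw [prod_mul_distrib, prod_ite, prod_const, prod_const_one, mul_one, prod_const, card_univ,
    Fintype.card_fin]

lemma big (hEIN : S_EIN) {k l : ℕ} {g : Edge n → Fin m} (hg : Gd g k l) {T : Finset (Fin n)}
    (hT : T.card = k) (S : Fin m → Finset (Fin q))
    (hS : (univ.filter fun γ => 2 * (S γ).card ≤ q).card ≤ l) :
    q * k.choose 2 / 4 ≤ (fr g (T, S)).card := by
  set Γ : Finset (Fin m) := univ.filter fun γ => 2 * (S γ).card ≤ q with hΓ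
  have h1 := hg T hT Γ hS
  have h2 : (ein T).card = k.choose 2 := by rw [hEIN n T, hT]
  have h3 := card_filter_add_card_filter_not (s := ein T) fun e => g e ∈ Γ
  have h4 : ((ein T).filter fun e => ¬ g e ∈ Γ).card * q ≤ 2 * (fr g (T, S)).card := by
    rw [card_fr, mul_sum]
    calc ((ein T).filter fun e => ¬ g e ∈ Γ).card * q
        ≤ ∑ e ∈ (ein T).filter fun e => ¬ g e ∈ Γ, 2 * (S (g e)).card := by
          rw [← smul_eq_mul]
          refine card_nsmul_le_sum _ _ _ fun e he => ?_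
          have := (mem_filter.1 he).2
          rw [hΓ, mem_filter] at this
          have h' : ¬ 2 * (S (g e)).card ≤ q := fun h => this ⟨mem_univ _, h⟩
          omega
      _ ≤ ∑ e ∈ ein T, 2 * (S (g e)).card := sum_le_sum_of_subset (filter_subset _ _)
  refine Nat.div_le_of_le_mul ?_
  have h5 : k.choose 2 ≤ 2 * ((ein T).filter fun e => ¬ g e ∈ Γ).card := by omega
  calc q * k.choose 2 ≤ q * (2 * ((ein T).filter fun e => ¬ g e ∈ Γ).card) :=
        Nat.mul_le_mul_left _ h5
    _ = 2 * (((ein T).filter fun e => ¬ g e ∈ Γ).card * q) := by ring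
    _ ≤ 2 * (2 * (fr g (T, S)).card) := Nat.mul_le_mul_left _ h4
    _ = 4 * (fr g (T, S)).card := by ring

end BASEx

open BASEx in
theorem p_BASE (hUB : S_UB) (hEIN : S_EIN) :
    S_BASE := by
  intro n m q k l g hg
  set s : Finset (Finset (Fin n) × (Fin m → Finset (Fin q))) :=
    (powersetCard k univ ×ˢ univ).filter fun θ => q * k.choose 2 / 4 ≤ (fr g θ).card with hs
  have hU := hUB (Edge n × Fin q) _ s (fr g)
  have hsub : {b : Edge n × Fin q → Bool | ¬ ∀ T : Finset (Fin n), T.card = k →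
      (Set.ncard {t : Fin m → Fin q | Cl (pt g b t) T} : ℝ) ≤ (1 / 2 : ℝ) ^ l * (q : ℝ) ^ m} ⊆
      {b : Edge n × Fin q → Bool | ∃ θ ∈ s, On b (fr g θ)} := by
    intro b hb
    by_contra hn
    refine hb fun T hT => ?_
    rw [ncard_cl]
    refine (prod_le _).trans (mul_le_mul_of_nonneg_right ?_ (by positivity))
    refine pow_le_pow_of_le_one (by norm_num) (by norm_num) ?_
    by_contra hl
    refine hn ⟨(T, ok g b T), ?_, on_fr g b T⟩
    refine mem_filter.2 ⟨mem_product.2 ⟨mem_powersetCard.2 ⟨subset_univ _, hT⟩, mem_univ _⟩, ?_⟩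
    exact big hEIN hg hT _ (not_le.1 hl).le
  have h1 : (Set.ncard {b : Edge n × Fin q → Bool | ¬ ∀ T : Finset (Fin n), T.card = k →
      (Set.ncard {t : Fin m → Fin q | Cl (pt g b t) T} : ℝ) ≤ (1 / 2 : ℝ) ^ l * (q : ℝ) ^ m} : ℝ) ≤
      Set.ncard {b : Edge n × Fin q → Bool | ∃ θ ∈ s, On b (fr g θ)} := by
    exact_mod_cast Set.ncard_le_ncard hsub (Set.toFinite _)
  refine h1.trans (hU.trans (mul_le_mul_of_nonneg_right ?_ (by positivity)))
  have hc : s.card ≤ n ^ k * 2 ^ (q * m) := by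
    refine (card_filter_le _ _).trans ?_
    rw [card_product, card_powersetCard, card_univ, Fintype.card_fin, card_univ, Fintype.card_fun,
      Fintype.card_finset, Fintype.card_fin, Fintype.card_fin, ← pow_mul]
    exact Nat.mul_le_mul_right _ (Nat.choose_le_pow _ _)
  calc ∑ θ ∈ s, (1 / 2 : ℝ) ^ (fr g θ).card
      ≤ s.card • (1 / 2 : ℝ) ^ (q * k.choose 2 / 4) :=
        sum_le_card_nsmul _ _ _ fun θ hθ =>
          pow_le_pow_of_le_one (by norm_num) (by norm_num) (mem_filter.1 hθ).2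
    _ ≤ (n : ℝ) ^ k * 2 ^ (q * m) * (1 / 2 : ℝ) ^ (q * k.choose 2 / 4) := by
        rw [nsmul_eq_mul]
        refine mul_le_mul_of_nonneg_right ?_ (by positivity)
        exact_mod_cast hc

end Pool.Agent.P.MP_7ffab6_lc.SD
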