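import Pool.Agent.P.MP_7ffab6_lc.SD.Iface

/-! Step BD0. -/

set_option autoImplicit false
set_option linter.unusedSectionVars false

namespace Pool.Agent.P.MP_7ffab6_lc.SD

open Finset Filter

theorem p_BD0 :
    S_BD0 := by
  classical
  intro n m q g b good lab h k η hη h1 h2 H hH
  have hs : (good.filter fun t => k ≤ (lab t ∩ H).card) ⊆
      (powersetCard k H).biUnion fun T => univ.filter fun t => Cl (pt g b t) T := by
    intro t ht
    obtain ⟨hg, hk⟩ := mem_filter.1 ht
    obtain ⟨T, hT, hc⟩ := exists_subset_card_eq hk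
    exact mem_biUnion.2 ⟨T, mem_powersetCard.2 ⟨hT.trans inter_subset_right, hc⟩,
      mem_filter.2 ⟨mem_univ _, (h2 t hg).mono (hT.trans inter_subset_left)⟩⟩
  have hc : ((powersetCard k H).card : ℝ) ≤ 2 ^ h := by
    have h3 : (powersetCard k H).card ≤ 2 ^ h := by
      rw [card_powersetCard]
      exact (Nat.choose_le_two_pow _ _).trans (Nat.pow_le_pow_right two_pos hH)
    exact_mod_cast h3
  have h4 : ∀ T ∈ powersetCard k H,
      (((univ.filter fun t => Cl (pt g b t) T).card : ℕ) : ℝ) ≤ η := fun T hT => by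
    refine le_trans (le_of_eq ?_) (h1 T (mem_powersetCard.1 hT).2)
    rw [← Set.ncard_coe_finset]
    congr 2
    ext t
    simp
  calc ((good.filter fun t => k ≤ (lab t ∩ H).card).card : ℝ)
      ≤ ∑ T ∈ powersetCard k H, (((univ.filter fun t => Cl (pt g b t) T).card : ℕ) : ℝ) := by
        exact_mod_cast (card_le_card hs).trans card_biUnion_le
    _ ≤ (powersetCard k H).card • η := sum_le_card_nsmul _ _ _ h4
    _ ≤ 2 ^ h * η := by
        rw [nsmul_eq_mul]
        exact mul_le_mul_of_nonneg_right hc hη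

end Pool.Agent.P.MP_7ffab6_lc.SD
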