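import Pool.Agent.P.MP_7ffab6_lc.SD.Iface

/-! Step C1. -/

set_option autoImplicit false
set_option linter.unusedSectionVars false

namespace Pool.Agent.P.MP_7ffab6_lc.SD

open Finset Filter

namespace C1x

lemma enum {α : Type} (S : Finset α) (h : ℕ) (hS : S.card ≤ h) :
    ∃ θ : Fin h → Option α, ∀ u, (∃ i, θ i = some u) ↔ u ∈ S := by
  refine ⟨fun i => if hi : (i : ℕ) < S.card then some (S.equivFin.symm ⟨i, hi⟩ : α) else none,
    fun u => ⟨?_, fun hu => ⟨⟨S.equivFin ⟨u, hu⟩, (S.equivFin ⟨u, hu⟩).2.trans_le hS⟩, ?_⟩⟩⟩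
  · rintro ⟨i, hi⟩
    dsimp only at hi
    split_ifs at hi with h1
    exact Option.some.inj hi ▸ (S.equivFin.symm ⟨i, h1⟩).2
  · simp

lemma num (c h Λ : ℕ) (hc : c ≤ (2 ^ Λ) ^ h) :
    2 * (c : ℝ) * (1 / 2 : ℝ) ^ (h * (Λ + 1)) ≤ 2 * (1 / 2 : ℝ) ^ h := by
  have h1 : (c : ℝ) ≤ ((2 : ℝ) ^ Λ) ^ h := by exact_mod_cast hc
  calc _ ≤ 2 * ((2 : ℝ) ^ Λ) ^ h * (1 / 2 : ℝ) ^ (h * (Λ + 1)) := by gcongr
    _ = _ := by
      rw [mul_comm h, pow_mul, mul_assoc, ← mul_pow]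
      congr 2
      rw [pow_succ, ← mul_assoc, ← mul_pow]
      norm_num

end C1x

theorem p_C1 (hCOVER : S_COVER) :
    S_C1 := by
  classical
  intro n m q g PP h Λ y h1 h2
  have key := hCOVER (Edge n × Fin q) (Fin h → Option (Fin n × PP)) (Fin m → Fin q)
    (fun θ t => prs g t (univ.filter fun u => ∃ B : PP, (∃ i, θ i = some (u, B)) ∧ t ∈ B.1))
    y (h * (Λ + 1)) (by simpa using h2)
  refine le_trans ?_ (key.trans (mul_le_mul_of_nonneg_right (C1x.num _ h Λ ?_) (by positivity)))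
  · refine Nat.cast_le.2 (Set.ncard_le_ncard (fun b hb hall => hb fun H A hH hA => ?_)
      (Set.toFinite _))
    obtain ⟨θ, hθ⟩ := C1x.enum (H.image fun u => (u, (⟨A u, hA u⟩ : PP))) h
      (card_image_le.trans hH)
    obtain ⟨F, hF, hc⟩ := hall θ
    refine ⟨F.image Prod.fst, card_image_le.trans hF, fun t ht => ?_⟩
    have e : (univ.filter fun u => ∃ B : PP, (∃ i, θ i = some (u, B)) ∧ t ∈ B.1) =
        H.filter fun u => t ∈ A u := by
      ext u
      simp only [mem_filter, mem_univ, true_and, hθ, mem_image, Prod.mk.injEq]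
      constructor
      · rintro ⟨B, ⟨v, hv, rfl, rfl⟩, hB⟩
        exact ⟨hv, hB⟩
      · rintro ⟨hu, ht⟩
        exact ⟨⟨A u, hA u⟩, ⟨u, hu, rfl, rfl⟩, ht⟩
    have := hc t
    rw [e] at this
    exact (card_sdiff_le_prs g t _ F).trans (this ((cl_iff_on g b t _).1 ht))
  · simp only [Fintype.card_fun, Fintype.card_option, Fintype.card_prod, Fintype.card_fin,
      Fintype.card_coe]
    exact Nat.pow_le_pow_left h1 h

end Pool.Agent.P.MP_7ffab6_lc.SD
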