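import Pool.Agent.P.MP_7ffab6_lc.SD.Iface

/-! Step CH. -/

set_option autoImplicit false
set_option linter.unusedSectionVars false

namespace Pool.Agent.P.MP_7ffab6_lc.SD

open Finset Filter

theorem p_CH (hRND : S_RND) :
    S_CH := by
  intro n τ good lab K k β hβ
  refine ⟨?_, ?_⟩
  · intro R J l a hR hl
    induction J with
    | zero =>
      intro _ _ hb
      exact hb.mono (by simpa using hl) (by simp) (by simp)
    | succ J ih =>
      intro hrp hK hb
      have hK' : k + J * a + a ≤ K := by
        have : (J + 1) * a = J * a + a := by ring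
        omega
      have h1 := ih (fun j hj => hrp j (by omega)) (by omega) hb
      have h2 : Bd good lab l (k + J * a) β := hb.mono le_rfl (by omega) le_rfl
      have h3 := hRND n τ good lab (R ^ (J + 1)) K l (R ^ J) a (k + J * a) _ β
        (hrp J (by omega)) hK' hβ h1 h2
      refine h3.mono le_rfl (le_of_eq (by ring)) ?_
      have hR' : (1 : ℝ) ≤ R := by exact_mod_cast hR
      have hp : (R : ℝ) ^ J ≤ (R : ℝ) ^ (J + 1) := pow_le_pow_right₀ hR' (by omega)
      have hJ : (0 : ℝ) ≤ (J : ℝ) + 1 := by positivity
      have h4 : ((J : ℝ) + 1) * (R : ℝ) ^ J * β ≤ ((J : ℝ) + 1) * (R : ℝ) ^ (J + 1) * β :=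
        mul_le_mul_of_nonneg_right (mul_le_mul_of_nonneg_left hp hJ) hβ
      push_cast
      nlinarith [h4]
  · intro h a I
    induction I with
    | zero =>
      intro _ _ hb
      simpa using hb
    | succ I ih =>
      intro hrp hK hb
      rw [sum_range_succ] at hK
      have h1 := ih (fun j hj => hrp j (by omega)) (by omega) hb
      have hnn : 0 ≤ (∏ i ∈ range I, ((h (i + 1) : ℝ) + 1)) * β :=
        mul_nonneg (prod_nonneg fun i _ => by positivity) hβ
      have h3 := hRND n τ good lab (h (I + 1)) K (h I) (h I) (a I) (k + ∑ i ∈ range I, a i) _ _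
        (hrp I (by omega)) (by omega) hnn h1 h1
      refine h3.mono le_rfl (le_of_eq ?_) (le_of_eq ?_)
      · rw [sum_range_succ]; ring
      · rw [prod_range_succ]; ring

end Pool.Agent.P.MP_7ffab6_lc.SD
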