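import Pool.Agent.P.MP_7ffab6_lc.SD.Iface

/-! Step COVER. -/

set_option autoImplicit false
set_option linter.unusedSectionVars false

namespace Pool.Agent.P.MP_7ffab6_lc.SD

open Finset Filter

namespace COVERx

lemma key {P Sg : Type} [DecidableEq P] [Fintype Sg] (Φ : Sg → Finset P) (y z : ℕ) (b : P → Bool)
    (h : ¬ ∃ F : Finset P, F.card ≤ 2 * z ∧ ∀ σ, On b (Φ σ) → (Φ σ \ F).card ≤ 2 * y) :
    ∃ s : Finset Sg, On b (s.biUnion Φ) ∧ z + y * s.card ≤ (s.biUnion Φ).card := by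
  classical
  obtain ⟨s, hs, hm⟩ := exists_max_image (univ.filter fun s : Finset Sg =>
    On b (s.biUnion Φ) ∧ 2 * y * s.card ≤ (s.biUnion Φ).card) card
    ⟨∅, mem_filter.2 ⟨mem_univ _, by simp [On], by simp⟩⟩
  obtain ⟨h1, h2⟩ := (mem_filter.1 hs).2
  refine ⟨s, h1, ?_⟩
  have h3 : 2 * z < (s.biUnion Φ).card := by
    by_contra h3
    refine h ⟨s.biUnion Φ, not_lt.1 h3, fun σ hσ => ?_⟩
    by_contra h4
    have h5 : σ ∉ s := fun h5 => by
      rw [sdiff_eq_empty_iff_subset.2 (subset_biUnion_of_mem Φ h5)] at h4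
      simp at h4
    have h6 := hm (insert σ s) (mem_filter.2 ⟨mem_univ _, ?_, ?_⟩)
    · rw [card_insert_of_notMem h5] at h6
      omega
    · rw [biUnion_insert]
      exact fun p hp => (mem_union.1 hp).elim (hσ p) (h1 p)
    · rw [biUnion_insert, card_insert_of_notMem h5, ← card_sdiff_add_card, mul_add]
      omega
  rw [mul_assoc] at h2
  omega

lemma two {N y : ℕ} (h : 2 * N ≤ 2 ^ y) : ((1 / 2 : ℝ) ^ y + 1) ^ N ≤ 2 := by
  have h1 : (N : ℝ) * (1 / 2 : ℝ) ^ y ≤ 1 / 2 := by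
    have : (2 * N : ℝ) ≤ 2 ^ y := by exact_mod_cast h
    rw [one_div_pow, mul_one_div, div_le_iff₀ (by positivity)]
    linarith
  refine (pow_le_pow_left₀ (by positivity) (Real.add_one_le_exp _) N).trans ?_
  rw [← Real.exp_nat_mul]
  refine (Real.exp_le_exp.2 h1).trans ?_
  have h2 := Real.add_one_le_exp (-(1 / 2) : ℝ)
  rw [Real.exp_neg, le_inv_comm₀ (by norm_num) (Real.exp_pos _)] at h2
  exact h2.trans (by norm_num)

end COVERx

theorem p_COVER (hUB : S_UB) :
    S_COVER := by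
  intro P Θ Sg _ _ _ _ Φ y z hy
  classical
  have h1 := hUB P (Θ × Finset Sg)
    (univ.filter fun x => z + y * x.2.card ≤ (x.2.biUnion (Φ x.1)).card)
    fun x => x.2.biUnion (Φ x.1)
  refine le_trans (le_trans ?_ h1) (mul_le_mul_of_nonneg_right ?_ (by positivity))
  · refine Nat.cast_le.2 (Set.ncard_le_ncard (fun b hb => ?_) (Set.toFinite _))
    obtain ⟨θ, hθ⟩ := not_forall.1 hb
    obtain ⟨s, h2, h3⟩ := COVERx.key (Φ θ) y z b hθ
    exact ⟨(θ, s), mem_filter.2 ⟨mem_univ _, h3⟩, h2⟩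
  · calc _ ≤ ∑ x ∈ univ.filter (fun x : Θ × Finset Sg =>
            z + y * x.2.card ≤ (x.2.biUnion (Φ x.1)).card),
            (1 / 2 : ℝ) ^ z * ((1 / 2 : ℝ) ^ y) ^ x.2.card := by
          refine sum_le_sum fun x hx => ?_
          rw [← pow_mul, ← pow_add]
          exact pow_le_pow_of_le_one (by norm_num) (by norm_num) (mem_filter.1 hx).2
      _ ≤ ∑ x : Θ × Finset Sg, (1 / 2 : ℝ) ^ z * ((1 / 2 : ℝ) ^ y) ^ x.2.card :=
          sum_le_sum_of_subset_of_nonneg (filter_subset _ _) fun _ _ _ => by positivity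
      _ = Fintype.card Θ * ((1 / 2 : ℝ) ^ z * ((1 / 2 : ℝ) ^ y + 1) ^ Fintype.card Sg) := by
          rw [Fintype.sum_prod_type]
          simp only [← mul_sum]
          rw [sum_const, card_univ, nsmul_eq_mul, ← card_univ (α := Sg),
            ← sum_pow_mul_eq_add_pow, powerset_univ]
          simp only [one_pow, mul_one]
          ring
      _ ≤ Fintype.card Θ * ((1 / 2 : ℝ) ^ z * 2) := by
          gcongr
          exact COVERx.two hy
      _ = _ := by ring

end Pool.Agent.P.MP_7ffab6_lc.SD
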