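import Pool.Agent.P.MP_7ffab6_lc.SD.Iface

/-! Step DET. -/

set_option autoImplicit false
set_option linter.unusedSectionVars false

namespace Pool.Agent.P.MP_7ffab6_lc.SD

open Finset Filter

theorem p_DET (hRP1 : S_RP1) (hRP2 : S_RP2) (hCH : S_CH) (hBD0 : S_BD0) :
    S_DET := by
  intro β A K c x m q ρ l r J a₁ B I d a y P n hn g b PP Ac good lab hAc hlab hgood h1 h2 hT
  have hcl : ∀ t ∈ good, Cl (pt g b t) (lab t) := fun t ht => (hgood t ht).1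
  have hη : (0 : ℝ) ≤ (1 / 2 : ℝ) ^ l * (q : ℝ) ^ m := by positivity
  have hB : 1 ≤ B := by have := P.p8; omega
  have b0 := hBD0 n m q g b good lab (B * 2 ^ 2 ^ 0) (K / 2) _ hη hT hcl
  have p11 := P.p11
  have b1 := (hCH n _ good lab K (K / 2) _ (by positivity)).2 (fun i => B * 2 ^ 2 ^ i) a I
    (fun i hi => hRP2 n m q g b good lab _ K _ _ _ _ _ (h2 i hi) hcl
      (Nat.mul_pos hB (by positivity)) (by
        have e : 2 ^ 2 ^ (i + 1) = 2 ^ 2 ^ i * 2 ^ 2 ^ i := by rw [← pow_add]; congr 1; ring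
        rw [e]
        calc _ = (B * (2 ^ 2 ^ i * 2 ^ 2 ^ i)) * (4 * (β * K + 2)) := by ring
          _ ≤ (B * (2 ^ 2 ^ i * 2 ^ 2 ^ i)) * B := Nat.mul_le_mul_left _ P.p8
          _ = _ := by ring)
      (by have := (P.p10 i hi).2; omega)) (by omega) b0
  have hl : 4 * (2 ^ r) ^ 2 ≤ B * 2 ^ 2 ^ I :=
    calc 4 * (2 ^ r) ^ 2 = 2 ^ (2 * r + 2) := by ring
      _ ≤ 2 ^ 2 ^ I := Nat.pow_le_pow_right two_pos P.p9
      _ ≤ B * 2 ^ 2 ^ I := Nat.le_mul_of_pos_left _ hB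
  have b2 := (hCH n _ good lab K _ _ (by positivity)).1 (2 ^ r) J (4 * (2 ^ r) ^ 2) a₁
    Nat.one_le_two_pow (Nat.succ_le_of_lt (by positivity))
    (fun j hj => hRP1 n m q g b PP Ac good lab _ K _ _ _ _ _ (h1 j hj) hAc hlab hcl
      (Nat.succ_le_of_lt (by positivity)) (by
        calc _ = (4 * (2 ^ r) ^ (j + 1)) * (β * K + 1 + (q * m + 1) * (d + 1) + 1) := by ring
          _ ≤ (4 * (2 ^ r) ^ (j + 1)) * 2 ^ r := Nat.mul_le_mul_left _ P.p5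
          _ = _ := by ring)
      (by have := P.p7; omega)) p11 (b1.mono hl le_rfl le_rfl)
  have b3 := b2 univ (by
    rw [card_univ, Fintype.card_fin, ← pow_mul]
    exact hn.trans (Nat.pow_le_pow_right two_pos P.p6))
  rw [filter_true_of_mem fun t ht => by
    rw [inter_univ]; exact p11.trans (hgood t ht).2] at b3
  refine b3.trans ?_
  have p12 : ((J : ℝ) + 1) * 2 ^ (r * J) * (∏ i ∈ range I, ((B : ℝ) * 2 ^ 2 ^ (i + 1) + 1)) *
      2 ^ (2 * B) * 2 ^ ((A + 1) * K) ≤ 2 ^ l := by exact_mod_cast P.p12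
  have e1 : (1 / 2 : ℝ) ^ l * 2 ^ l = 1 := by rw [← mul_pow]; norm_num
  have e2 : (1 / 2 : ℝ) ^ ((A + 1) * K) * 2 ^ ((A + 1) * K) = 1 := by rw [← mul_pow]; norm_num
  have e3 : B * 2 ^ 2 ^ 0 = 2 * B := by ring
  rw [e3]
  push_cast
  rw [← pow_mul]
  set X := ((J : ℝ) + 1) * 2 ^ (r * J) * (∏ i ∈ range I, ((B : ℝ) * 2 ^ 2 ^ (i + 1) + 1)) *
      2 ^ (2 * B) with hX
  have h3 := mul_le_mul_of_nonneg_right p12
    (show (0 : ℝ) ≤ (1 / 2 : ℝ) ^ ((A + 1) * K) * ((1 / 2 : ℝ) ^ l * (q : ℝ) ^ m) by positivity)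
  calc _ = X * ((1 / 2 : ℝ) ^ ((A + 1) * K) * 2 ^ ((A + 1) * K)) *
        ((1 / 2 : ℝ) ^ l * (q : ℝ) ^ m) := by rw [e2, hX]; ring
    _ = _ := by ring
    _ ≤ _ := h3
    _ = (1 / 2 : ℝ) ^ ((A + 1) * K) * ((1 / 2 : ℝ) ^ l * 2 ^ l) * (q : ℝ) ^ m := by ring
    _ = _ := by rw [e1, mul_one]

end Pool.Agent.P.MP_7ffab6_lc.SD
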