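import Pool.Agent.P.MP_7ffab6_lc.SD.Iface

/-! Step DIM. -/

set_option autoImplicit false
set_option linter.unusedSectionVars false

namespace Pool.Agent.P.MP_7ffab6_lc.SD

open Finset Filter

namespace DIMx

variable {m q : ℕ}

/-- the support of an incomplete address -/
def sup (o : Fin m → Option (Fin q)) : Finset (Fin m) := univ.filter fun j => (o j).isSome

/-- the indicator attached to an incomplete address -/
noncomputable def ind (o : Fin m → Option (Fin q)) : (Fin m → Fin q) → ℝ :=
  fun t => if ∀ j, (o j).isSome → o j = some (t j) then 1 else 0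

/-- the incomplete addresses with small support -/
def small (m q D : ℕ) : Finset (Fin m → Option (Fin q)) := univ.filter fun o => (sup o).card ≤ D

lemma le_span (D : ℕ) :
    Wd m q D ≤ Submodule.span ℝ (((small m q D).image ind : Finset ((Fin m → Fin q) → ℝ)) :
      Set ((Fin m → Fin q) → ℝ)) := by
  classical
  refine Submodule.span_mono ?_
  rintro φ ⟨J, hJ, a, rfl⟩
  refine mem_coe.2 (mem_image.2 ⟨fun j => if j ∈ J then some (a j) else none, ?_, ?_⟩)
  · refine mem_filter.2 ⟨mem_univ _, le_trans (card_le_card ?_) hJ⟩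
    intro j hj
    have := (mem_filter.1 hj).2
    by_contra h
    simp [h] at this
  · funext t
    simp only [ind]
    refine if_congr ⟨fun h j hj => ?_, fun h j hj => ?_⟩ rfl rfl
    · have := h j (by simp [hj])
      simp only [hj, if_true, Option.some.injEq] at this
      exact this.symm
    · by_cases hjJ : j ∈ J
      · simp [hjJ, h j hjJ]
      · simp [hjJ] at hj

lemma pow_sup (x : ℝ) (o : Fin m → Option (Fin q)) :
    x ^ (sup o).card = ∏ j, (if (o j).isSome then x else 1) := by
  rw [prod_ite, prod_const, prod_const_one, mul_one]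
  rfl

lemma sum_pow (x : ℝ) :
    ∑ o : Fin m → Option (Fin q), x ^ (sup o).card = (1 + x * q) ^ m := by
  have h := Finset.prod_univ_sum (fun _ : Fin m => (univ : Finset (Option (Fin q))))
    (fun _ (c : Option (Fin q)) => if c.isSome then x else (1 : ℝ))
  rw [Fintype.piFinset_univ] at h
  simp only [pow_sup]
  rw [← h]
  simp [Fintype.sum_option, mul_comm]

lemma card_small (D : ℕ) (x : ℝ) (h0 : 0 < x) (h1 : x ≤ 1) :
    ((small m q D).card : ℝ) ≤ (1 / x) ^ D * (1 + x * q) ^ m := by
  rw [← sum_pow, mul_sum]
  calc ((small m q D).card : ℝ) = ∑ _o ∈ small m q D, (1 : ℝ) := by simp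
    _ ≤ ∑ o ∈ small m q D, (1 / x) ^ D * x ^ (sup o).card := by
        refine sum_le_sum fun o ho => ?_
        have hle : (sup o).card ≤ D := (mem_filter.1 ho).2
        have : x ^ D ≤ x ^ (sup o).card := pow_le_pow_of_le_one h0.le h1 hle
        calc (1 : ℝ) = (1 / x) ^ D * x ^ D := by
              rw [← mul_pow, one_div, inv_mul_cancel₀ h0.ne', one_pow]
          _ ≤ _ := by gcongr
    _ ≤ _ := sum_le_sum_of_subset_of_nonneg (subset_univ _) fun o _ _ => by positivity

end DIMx

theorem p_DIM :
    S_DIM := by
  classical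
  intro m q D x h0 h1
  refine le_trans ?_ (DIMx.card_small D x h0 h1)
  have h2 := Submodule.finrank_mono (DIMx.le_span (m := m) (q := q) D)
  have h3 := finrank_span_finset_le_card (R := ℝ) ((DIMx.small m q D).image DIMx.ind)
  have h4 : ((DIMx.small m q D).image DIMx.ind).card ≤ (DIMx.small m q D).card := card_image_le
  exact_mod_cast h2.trans (le_trans h3 h4)

end Pool.Agent.P.MP_7ffab6_lc.SD
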