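import Pool.Agent.P.MP_7ffab6_lc.SD.Iface

/-! Step FIN. -/

set_option autoImplicit false
set_option linter.unusedSectionVars false

namespace Pool.Agent.P.MP_7ffab6_lc.SD

open Finset Filter

theorem p_FIN (hMAIN : S_MAIN) :
    S_FIN := by
  intro α A hα
  obtain ⟨c, hc, K0, h⟩ := hMAIN ⌈1 / α⌉₊ ⌈A / α⌉₊
  refine ⟨c * α, by positivity, 2 ^ ⌈K0 / α⌉₊, fun n hn f hf => ?_⟩
  have n0 : (0 : ℝ) < n := by exact_mod_cast lt_of_lt_of_le (by positivity) hn
  have e : (2 : ℝ) ^ Real.logb 2 n = n := Real.rpow_logb two_pos (by norm_num) n0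
  have l0 : (⌈K0 / α⌉₊ : ℝ) ≤ Real.logb 2 n := by
    rw [Real.le_logb_iff_rpow_le one_lt_two n0, Real.rpow_natCast]
    exact_mod_cast hn
  generalize Real.logb 2 n = L at e l0 hf ⊢
  have l1 : 0 ≤ L := (Nat.cast_nonneg _).trans l0
  have k1 : α * L ≤ ⌈α * L⌉₊ := Nat.le_ceil _
  have key : ∀ B : ℝ, B * L ≤ (⌈B / α⌉₊ * ⌈α * L⌉₊ : ℕ) := fun B => by
    have h1 := (div_le_iff₀ hα).1 (Nat.le_ceil (B / α))
    push_cast
    exact (mul_le_mul_of_nonneg_right h1 l1).trans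
      ((mul_assoc _ _ _).trans_le (mul_le_mul_of_nonneg_left k1 (Nat.cast_nonneg _)))
  have h1 := h ⌈α * L⌉₊ ?_ n ?_ f fun i => (hf i).trans
    ((mul_assoc _ _ _).trans_le (mul_le_mul_of_nonneg_left k1 hc.le))
  · simp only [Nat.ceil_le] at h1
    refine h1.trans ?_
    rw [← e, ← Real.rpow_mul two_pos.le, one_div, inv_pow, ← Real.rpow_natCast,
      ← Real.rpow_neg two_pos.le]
    exact Real.rpow_le_rpow_of_exponent_le one_le_two (by linarith [key A])
  · have := (div_le_iff₀ hα).1 ((Nat.le_ceil _).trans l0)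
    exact_mod_cast this.trans ((mul_comm _ _).trans_le k1)
  · have := Real.rpow_le_rpow_of_exponent_le one_le_two ((one_mul L).symm.trans_le (key 1))
    rw [e, Real.rpow_natCast] at this
    exact_mod_cast this

end Pool.Agent.P.MP_7ffab6_lc.SD
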