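import Pool.Agent.P.MP_7ffab6_lc.SD.Iface

/-! Step GEX. -/

set_option autoImplicit false
set_option linter.unusedSectionVars false

namespace Pool.Agent.P.MP_7ffab6_lc.SD

open Finset Filter

namespace GEXx

lemma box_card {α : Type} [Fintype α] [DecidableEq α] {m : ℕ} (Γ : Finset (Fin m))
    (E : Finset α) :
    (Fintype.piFinset fun e => if e ∈ E then Γ else (univ : Finset (Fin m))).card =
      Γ.card ^ E.card * m ^ (Fintype.card α - E.card) := by
  rw [Fintype.card_piFinset]
  have h1 : ∀ e : α, (if e ∈ E then Γ else (univ : Finset (Fin m))).card =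
      if e ∈ E then Γ.card else m := by
    intro e
    split_ifs
    · rfl
    · simp
  simp only [h1]
  rw [Finset.prod_ite]
  have h2 : (univ.filter fun e : α => e ∈ E) = E := by ext; simp
  have h3 : (univ.filter fun e : α => ¬ e ∈ E) = Eᶜ := by ext; simp
  rw [h2, h3, prod_const, prod_const, card_compl]

lemma box_le {α : Type} [Fintype α] [DecidableEq α] {m ρ l C : ℕ} (hm : m = 4 ^ ρ * l)
    (Γ : Finset (Fin m)) (hΓ : Γ.card ≤ l) (E : Finset α) (hE : C < 2 * E.card) :
    (Fintype.piFinset fun e => if e ∈ E then Γ else (univ : Finset (Fin m))).card * 2 ^ (ρ * C) ≤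
      m ^ Fintype.card α := by
  rw [box_card]
  have h1 : Γ.card ^ E.card * 2 ^ (ρ * C) ≤ m ^ E.card := by
    have a1 : Γ.card ^ E.card ≤ l ^ E.card := Nat.pow_le_pow_left hΓ _
    have a2 : 2 ^ (ρ * C) ≤ 2 ^ (ρ * (2 * E.card)) :=
      Nat.pow_le_pow_right (by norm_num) (Nat.mul_le_mul_left _ hE.le)
    have a3 : 2 ^ (ρ * (2 * E.card)) = (4 ^ ρ) ^ E.card := by
      rw [show (4 : ℕ) = 2 ^ 2 by norm_num, ← pow_mul, ← pow_mul]
      exact congrArg _ (by ring)
    calc Γ.card ^ E.card * 2 ^ (ρ * C) ≤ l ^ E.card * (4 ^ ρ) ^ E.card :=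
          Nat.mul_le_mul a1 (a2.trans a3.le)
      _ = (4 ^ ρ * l) ^ E.card := by rw [mul_pow, mul_comm]
      _ = m ^ E.card := by rw [← hm]
  have h2 : E.card ≤ Fintype.card α := card_le_univ E
  calc Γ.card ^ E.card * m ^ (Fintype.card α - E.card) * 2 ^ (ρ * C)
      = (Γ.card ^ E.card * 2 ^ (ρ * C)) * m ^ (Fintype.card α - E.card) := by ring
    _ ≤ m ^ E.card * m ^ (Fintype.card α - E.card) := Nat.mul_le_mul_right _ h1
    _ = m ^ Fintype.card α := by rw [← pow_add, Nat.add_sub_cancel' h2]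

end GEXx

theorem p_GEX (hEIN : S_EIN) :
    S_GEX := by
  intro n m k ρ l hm hl hlt
  by_contra hno
  have hbad : ∀ g : Edge n → Fin m, ¬ Gd g k l := fun g hg => hno ⟨g, hg⟩
  have hm0 : 0 < m := by rw [hm]; positivity
  let I : Finset ((_ : Finset (Fin n)) × (Finset (Fin m) × Finset (Edge n))) :=
    (powersetCard k (univ : Finset (Fin n))).sigma fun T => univ ×ˢ (ein T).powerset
  have hI : I.card ≤ n ^ k * 2 ^ m * 2 ^ k.choose 2 := by
    have h1 : I.card = ∑ T ∈ powersetCard k (univ : Finset (Fin n)), 2 ^ m * 2 ^ k.choose 2 := by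
      rw [card_sigma]
      refine sum_congr rfl fun T hT => ?_
      rw [card_product, card_powerset, hEIN n T, (mem_powersetCard.1 hT).2, card_univ,
        Fintype.card_finset, Fintype.card_fin]
    rw [h1, sum_const, card_powersetCard, card_univ, Fintype.card_fin, smul_eq_mul, mul_assoc]
    exact Nat.mul_le_mul_right _ (Nat.choose_le_pow n k)
  let J := I.filter fun x => x.2.1.card ≤ l ∧ k.choose 2 < 2 * x.2.2.card
  let B : ((_ : Finset (Fin n)) × (Finset (Fin m) × Finset (Edge n))) → Finset (Edge n → Fin m) :=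
    fun x => Fintype.piFinset fun e => if e ∈ x.2.2 then x.2.1 else (univ : Finset (Fin m))
  have hcov : (univ : Finset (Edge n → Fin m)) ⊆ J.biUnion B := by
    intro g _
    have hg := hbad g
    unfold Gd at hg
    push Not at hg
    obtain ⟨T, hT, Γ, hΓ, hlt'⟩ := hg
    refine mem_biUnion.2 ⟨⟨T, Γ, (ein T).filter fun e => g e ∈ Γ⟩, ?_, ?_⟩
    · refine mem_filter.2 ⟨mem_sigma.2 ⟨mem_powersetCard.2 ⟨subset_univ _, hT⟩, ?_⟩, hΓ, hlt'⟩
      exact mem_product.2 ⟨mem_univ _, mem_powerset.2 (filter_subset _ _)⟩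
    · refine Fintype.mem_piFinset.2 fun e => ?_
      split_ifs with he
      · exact (mem_filter.1 he).2
      · exact mem_univ _
  have h1 : m ^ Fintype.card (Edge n) ≤ ∑ x ∈ J, (B x).card := by
    have := (card_le_card hcov).trans card_biUnion_le
    rwa [card_univ, Fintype.card_fun, Fintype.card_fin] at this
  have h2 : (∑ x ∈ J, (B x).card) * 2 ^ (ρ * k.choose 2) ≤ J.card * m ^ Fintype.card (Edge n) := by
    rw [sum_mul, ← smul_eq_mul J.card, ← sum_const]
    refine sum_le_sum fun x hx => ?_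
    exact GEXx.box_le hm x.2.1 (mem_filter.1 hx).2.1 x.2.2 (mem_filter.1 hx).2.2
  have h3 : J.card < 2 ^ (ρ * k.choose 2) :=
    lt_of_le_of_lt ((card_filter_le _ _).trans hI) hlt
  have h4 : 0 < m ^ Fintype.card (Edge n) := by positivity
  have h5 : m ^ Fintype.card (Edge n) * 2 ^ (ρ * k.choose 2) ≤
      J.card * m ^ Fintype.card (Edge n) := (Nat.mul_le_mul_right _ h1).trans h2
  have h6 : J.card * m ^ Fintype.card (Edge n) <
      2 ^ (ρ * k.choose 2) * m ^ Fintype.card (Edge n) := Nat.mul_lt_mul_of_pos_right h3 h4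
  rw [mul_comm] at h5
  exact absurd h5 (not_le.2 h6)

end Pool.Agent.P.MP_7ffab6_lc.SD
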