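import Pool.Agent.P.MP_7ffab6_lc.SD.Iface

/-! Step MAIN. -/

set_option autoImplicit false
set_option linter.unusedSectionVars false

namespace Pool.Agent.P.MP_7ffab6_lc.SD

open Finset Filter

namespace MAINx

lemma un {α : Type} [Finite α] (S : ℕ → Set α) (ε : ℝ) (J : ℕ)
    (h : ∀ j < J, ((S j).ncard : ℝ) ≤ ε) :
    (Set.ncard {b | ∃ j < J, b ∈ S j} : ℝ) ≤ J * ε := by
  induction J with
  | zero => simp
  | succ J ih =>
    have e : {b | ∃ j < J + 1, b ∈ S j} = {b | ∃ j < J, b ∈ S j} ∪ S J := by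
      ext b
      simp only [Set.mem_ofPred_eq, Set.mem_union]
      constructor
      · rintro ⟨j, hj, hb⟩
        rcases Nat.lt_succ_iff_lt_or_eq.1 hj with h1 | h1
        · exact Or.inl ⟨j, h1, hb⟩
        · exact Or.inr (h1 ▸ hb)
      · rintro (⟨j, hj, hb⟩ | hb)
        · exact ⟨j, Nat.lt_succ_of_lt hj, hb⟩
        · exact ⟨J, Nat.lt_succ_self J, hb⟩
    rw [e]
    have h1 : (({b | ∃ j < J, b ∈ S j} ∪ S J).ncard : ℝ) ≤
        (Set.ncard {b | ∃ j < J, b ∈ S j} : ℝ) + (S J).ncard := by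
      exact_mod_cast Set.ncard_union_le _ _
    have h2 := ih fun j hj => h j (Nat.lt_succ_of_lt hj)
    have h3 := h J (Nat.lt_succ_self J)
    push_cast
    linarith

lemma half_le {a b : ℕ} (h : a ≤ b) : (1 / 2 : ℝ) ^ b ≤ (1 / 2 : ℝ) ^ a :=
  pow_le_pow_of_le_one (by norm_num) (by norm_num) h

lemma half_mul (a : ℕ) : (1 / 2 : ℝ) ^ a * 2 ^ a = 1 := by
  rw [← mul_pow]; norm_num

lemma qm (q m : ℕ) : q ^ m ≤ 2 ^ (q * m) := by
  rw [pow_mul]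
  exact Nat.pow_le_pow_left (Nat.lt_two_pow_self).le m

end MAINx

open MAINx in
theorem p_MAIN (hC1 : S_C1) (hC2 : S_C2) (hGEX : S_GEX) (hBASE : S_BASE) (hPAT : S_PAT) (hDIM : S_DIM) (hMEM : S_MEM) (hAVG : S_AVG) (hPAR : S_PAR) (hDET : S_DET) :
    S_MAIN := by
  classical
  intro β A
  obtain ⟨c, hc, hev⟩ := hPAR β A
  obtain ⟨K0, hK0⟩ := eventually_atTop.1 hev
  refine ⟨c, hc, K0, fun K hK n hn f hf => ?_⟩
  obtain ⟨x, m, q, ρ, l, r, J, a₁, B, I, d, a, y, P⟩ := hK0 K hK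
  have hnk : n ^ (K / 2) ≤ 2 ^ (β * K * (K / 2)) := by
    rw [pow_mul]; exact Nat.pow_le_pow_left hn _
  obtain ⟨g, hg⟩ := hGEX n m (K / 2) ρ l P.p1 P.l0 (by
    calc n ^ (K / 2) * 2 ^ m * 2 ^ (K / 2).choose 2
        ≤ 2 ^ (β * K * (K / 2)) * 2 ^ m * 2 ^ (K / 2).choose 2 := by gcongr
      _ = 2 ^ (β * K * (K / 2) + m + (K / 2).choose 2) := by rw [pow_add, pow_add]
      _ < 2 ^ (ρ * (K / 2).choose 2) := Nat.pow_lt_pow_right (by norm_num) P.p2)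
  set D := Nat.floor (c * K) with hD
  have hDle : (D : ℝ) ≤ c * K := Nat.floor_le (by positivity)
  have hfD : ∀ i, (f i).totalDegree ≤ D := fun i => Nat.le_floor (hf i)
  have hrk : Module.finrank ℝ (Wd m q D) ≤ d := by
    exact_mod_cast (hDIM m q D x P.x0 P.x1).trans (P.p4 D hDle)
  obtain ⟨PP, hPP, hPW⟩ := hPAT (Fin m → Fin q) (Wd m q D) d hrk
  have hcard : Fintype.card (Fin m → Fin q) = q ^ m := by simp
  have hq1 : q ^ m + 1 ≤ 2 ^ (q * m + 1) := by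
    have h1 := qm q m
    have h2 : 1 ≤ 2 ^ (q * m) := Nat.one_le_two_pow
    rw [pow_succ]; omega
  have hq2 : 2 * q ^ m ≤ 2 ^ (q * m + 1) := by
    have h1 := qm q m
    rw [pow_succ]; omega
  have hPP2 : PP.card ≤ 2 ^ ((q * m + 1) * (d + 1)) := by
    rw [pow_mul]
    refine hPP.trans ?_
    rw [hcard]
    exact Nat.pow_le_pow_left hq1 _
  have hΛ : n * PP.card + 1 ≤ 2 ^ (β * K + 1 + (q * m + 1) * (d + 1)) := by
    have h1 : n * PP.card ≤ 2 ^ (β * K) * 2 ^ ((q * m + 1) * (d + 1)) := Nat.mul_le_mul hn hPP2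
    have h2 : 1 ≤ 2 ^ (β * K) * 2 ^ ((q * m + 1) * (d + 1)) := Nat.succ_le_of_lt (by positivity)
    have h3 : 2 ^ (β * K + 1 + (q * m + 1) * (d + 1)) =
        2 * (2 ^ (β * K) * 2 ^ ((q * m + 1) * (d + 1))) := by
      rw [pow_add, pow_succ]; ring
    omega
  have hΛ2 : n + 1 ≤ 2 ^ (β * K + 1) := by
    have h2 : 1 ≤ 2 ^ (β * K) := Nat.one_le_two_pow
    rw [pow_succ]; omega
  set Z : ℝ := 2 ^ Fintype.card (Edge n × Fin q) with hZ
  have hZ0 : 0 < Z := by positivity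
  set S1 : ℕ → Set (Edge n × Fin q → Bool) := fun j => {b | ¬ C1 g b PP ((2 ^ r) ^ (j + 1))
    (2 * ((2 ^ r) ^ (j + 1) * (β * K + 1 + (q * m + 1) * (d + 1) + 1))) (2 * (q * m + 1))}
    with hS1
  set S2 : ℕ → Set (Edge n × Fin q → Bool) := fun i => {b | ¬ C2 g b (B * 2 ^ 2 ^ (i + 1)) K
      (2 * (B * 2 ^ 2 ^ (i + 1) * (β * K + 1 + 1))) (2 * y i)} with hS2
  set S3 : Set (Edge n × Fin q → Bool) := {b | ¬ ∀ T : Finset (Fin n), T.card = K / 2 →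
      (Set.ncard {t : Fin m → Fin q | Cl (pt g b t) T} : ℝ) ≤ (1 / 2 : ℝ) ^ l * (q : ℝ) ^ m}
    with hS3
  have b1 := un S1 (2 * (1 / 2 : ℝ) ^ B * Z) J fun j _ => by
    refine (hC1 n m q g PP _ _ _ hΛ hq2).trans ?_
    have hB : B ≤ (2 ^ r) ^ (j + 1) :=
      P.p14.trans (Nat.le_self_pow (Nat.succ_ne_zero j) _)
    have := half_le hB
    gcongr
  have b2 := un S2 (2 * (1 / 2 : ℝ) ^ B * Z) I fun i hi => by
    refine (hC2 n m q g _ K _ _ hΛ2 (P.p10 i hi).1).trans ?_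
    have hB : B ≤ B * 2 ^ 2 ^ (i + 1) := Nat.le_mul_of_pos_right _ (by positivity)
    have := half_le hB
    gcongr
  have b3 : (S3.ncard : ℝ) ≤ (1 / 2 : ℝ) ^ ((A + 2) * K) * Z := by
    refine (hBASE n m q (K / 2) l g hg).trans ?_
    refine mul_le_mul_of_nonneg_right ?_ hZ0.le
    have h1 : (n : ℝ) ^ (K / 2) ≤ 2 ^ (β * K * (K / 2)) := by exact_mod_cast hnk
    have h2 := half_le P.p3
    calc (n : ℝ) ^ (K / 2) * 2 ^ (q * m) * (1 / 2 : ℝ) ^ (q * (K / 2).choose 2 / 4)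
        ≤ 2 ^ (β * K * (K / 2)) * 2 ^ (q * m) *
            (1 / 2 : ℝ) ^ (β * K * (K / 2) + q * m + (A + 2) * K) := by gcongr
      _ = ((1 / 2 : ℝ) ^ (β * K * (K / 2)) * 2 ^ (β * K * (K / 2))) *
            ((1 / 2 : ℝ) ^ (q * m) * 2 ^ (q * m)) * (1 / 2 : ℝ) ^ ((A + 2) * K) := by
          rw [pow_add, pow_add]; ring
      _ = (1 / 2 : ℝ) ^ ((A + 2) * K) := by rw [half_mul, half_mul]; ring
  have b12 : ((J : ℝ) + I) * (2 * (1 / 2 : ℝ) ^ B) ≤ (1 / 2 : ℝ) ^ ((A + 2) * K) := by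
    have h1 : (2 * ((J : ℝ) + I)) * 2 ^ ((A + 2) * K) ≤ 2 ^ B := by exact_mod_cast P.p13
    have h2 : (0 : ℝ) < (1 / 2 : ℝ) ^ B * (1 / 2 : ℝ) ^ ((A + 2) * K) := by positivity
    have h3 := mul_le_mul_of_nonneg_right h1 h2.le
    calc ((J : ℝ) + I) * (2 * (1 / 2 : ℝ) ^ B)
        = (2 * ((J : ℝ) + I)) * (1 / 2 : ℝ) ^ B *
            ((1 / 2 : ℝ) ^ ((A + 2) * K) * 2 ^ ((A + 2) * K)) := by rw [half_mul]; ring
      _ = (2 * ((J : ℝ) + I)) * 2 ^ ((A + 2) * K) *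
            ((1 / 2 : ℝ) ^ B * (1 / 2 : ℝ) ^ ((A + 2) * K)) := by ring
      _ ≤ 2 ^ B * ((1 / 2 : ℝ) ^ B * (1 / 2 : ℝ) ^ ((A + 2) * K)) := h3
      _ = ((1 / 2 : ℝ) ^ B * 2 ^ B) * (1 / 2 : ℝ) ^ ((A + 2) * K) := by ring
      _ = (1 / 2 : ℝ) ^ ((A + 2) * K) := by rw [half_mul]; ring
  set Bad : Set (Edge n × Fin q → Bool) :=
    ({b | ∃ j < J, b ∈ S1 j} ∪ {b | ∃ i < I, b ∈ S2 i}) ∪ S3 with hBad
  have hBadc : (Bad.ncard : ℝ) ≤ (2 * (1 / 2 : ℝ) ^ ((A + 2) * K)) * Z := by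
    have h1 : (Bad.ncard : ℝ) ≤ (Set.ncard {b | ∃ j < J, b ∈ S1 j} : ℝ) +
        (Set.ncard {b | ∃ i < I, b ∈ S2 i} : ℝ) + S3.ncard := by
      have e1 := Set.ncard_union_le ({b | ∃ j < J, b ∈ S1 j} ∪ {b | ∃ i < I, b ∈ S2 i}) S3
      have e2 := Set.ncard_union_le {b | ∃ j < J, b ∈ S1 j} {b | ∃ i < I, b ∈ S2 i}
      exact_mod_cast e1.trans (Nat.add_le_add_right e2 _)
    have h2 := mul_le_mul_of_nonneg_right b12 hZ0.le
    nlinarith
  set E : Set (Edge n → Bool) := {x : Edge n → Bool | (graphOf x).IsClique (output f x) ∧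
      K ≤ (output f x).ncard} with hE
  have key := hAVG n m q g E Bad ((1 / 2 : ℝ) ^ ((A + 1) * K)) (2 * (1 / 2 : ℝ) ^ ((A + 2) * K))
    P.q0 (by positivity) (fun b hb => ?_) hBadc
  · refine key.trans ?_
    have hu : (1 / 2 : ℝ) ^ K ≤ (1 / 2 : ℝ) ^ 1 := half_le P.k1
    have hu0 : (0 : ℝ) < (1 / 2 : ℝ) ^ K := by positivity
    have hw : (0 : ℝ) < (1 / 2 : ℝ) ^ (A * K) := by positivity
    have e1 : (1 / 2 : ℝ) ^ ((A + 1) * K) = (1 / 2 : ℝ) ^ (A * K) * (1 / 2 : ℝ) ^ K := by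
      rw [← pow_add]; congr 1; ring
    have e2 : (1 / 2 : ℝ) ^ ((A + 2) * K) =
        (1 / 2 : ℝ) ^ (A * K) * ((1 / 2 : ℝ) ^ K * (1 / 2 : ℝ) ^ K) := by
      rw [← pow_add, ← pow_add]; congr 1; ring
    rw [e1, e2]
    have h4 : (1 / 2 : ℝ) ^ K + 2 * ((1 / 2 : ℝ) ^ K * (1 / 2 : ℝ) ^ K) ≤ 1 := by
      rw [pow_one] at hu; nlinarith
    nlinarith
  · simp only [hBad, Set.mem_union, Set.mem_ofPred_eq, not_or, not_exists, not_and, hS1, hS2, hS3,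
      not_not] at hb
    obtain ⟨⟨h1, h2⟩, h3⟩ := hb
    set Ac : Fin n → Finset (Fin m → Fin q) :=
      fun u => univ.filter fun t => 1 / 2 ≤ value (f u) (pt g b t) with hAc
    set lab : (Fin m → Fin q) → Finset (Fin n) := fun t => univ.filter fun u => t ∈ Ac u with hlab
    set good : Finset (Fin m → Fin q) := univ.filter fun t => pt g b t ∈ E with hgood
    have hout : ∀ t, output f (pt g b t) = (lab t : Set (Fin n)) := by
      intro t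
      ext u
      simp [output, hlab, hAc]
    have hres := hDET β A K c x m q ρ l r J a₁ B I d a y P n hn g b PP Ac good lab
      (fun u => hPW _ (hMEM n m q D g b (f u) (hfD u))) (fun t u => by simp [hlab])
      (fun t ht => by
        have ht' : pt g b t ∈ E := (mem_filter.1 ht).2
        obtain ⟨e1, e2⟩ := ht'
        rw [hout t] at e1 e2
        exact ⟨cl_of_isClique e1, by rwa [Set.ncard_coe_finset] at e2⟩) h1 h2 h3
    have e : {t : Fin m → Fin q | pt g b t ∈ E} = (good : Set (Fin m → Fin q)) := by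
      ext t; simp [hgood]
    rw [e, Set.ncard_coe_finset]
    exact hres

end Pool.Agent.P.MP_7ffab6_lc.SD
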