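import Pool.Agent.P.MP_7ffab6_lc.SD.Iface

/-! Step MEM. -/

set_option autoImplicit false
set_option linter.unusedSectionVars false

namespace Pool.Agent.P.MP_7ffab6_lc.SD

open Finset Filter

namespace MEMx

lemma junta {m q D : ℕ} (J : Finset (Fin m)) (hJ : J.card ≤ D) (φ : (Fin m → Fin q) → ℝ)
    (h : ∀ s t, (∀ j ∈ J, s j = t j) → φ s = φ t) : φ ∈ Wd m q D := by
  classical
  have key : φ = ∑ a : Fin m → Fin q,
      (φ a / ((univ.filter fun s : Fin m → Fin q => ∀ j ∈ J, a j = s j).card : ℝ)) •
        (fun t : Fin m → Fin q => if ∀ j ∈ J, t j = a j then (1 : ℝ) else 0) := by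
    funext t
    simp only [Finset.sum_apply, Pi.smul_apply, smul_eq_mul, mul_ite, mul_one, mul_zero]
    rw [← sum_filter]
    have e : ∀ a ∈ univ.filter (fun a : Fin m → Fin q => ∀ j ∈ J, t j = a j),
        φ a / ((univ.filter fun s : Fin m → Fin q => ∀ j ∈ J, a j = s j).card : ℝ) =
        φ t / ((univ.filter fun s : Fin m → Fin q => ∀ j ∈ J, t j = s j).card : ℝ) := by
      intro a ha
      have ha' := (mem_filter.1 ha).2
      rw [h t a ha']
      congr 2
      refine congrArg _ (filter_congr fun s _ => ?_)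
      exact forall₂_congr fun j hj => by rw [ha' j hj]
    rw [sum_congr rfl e, sum_const, nsmul_eq_mul]
    have hp : ((univ.filter fun s : Fin m → Fin q => ∀ j ∈ J, t j = s j).card : ℝ) ≠ 0 := by
      exact_mod_cast (card_pos.2 ⟨t, by simp⟩).ne'
    field_simp
  rw [key]
  refine Submodule.sum_mem _ fun a _ => Submodule.smul_mem _ _ (Submodule.subset_span ?_)
  exact ⟨J, hJ, a, by funext t; congr⟩

end MEMx

theorem p_MEM :
    S_MEM := by
  classical
  intro n m q D g b p hp
  have e : (fun t => value p (pt g b t)) = ∑ d ∈ p.support, fun t : Fin m → Fin q =>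
      MvPolynomial.coeff d p * ∏ i ∈ d.support, (if pt g b t i = true then (1 : ℝ) else 0) ^ d i := by
    funext t
    simp only [value, MvPolynomial.eval_eq, Finset.sum_apply]
  rw [e]
  refine Submodule.sum_mem _ fun d hd => MEMx.junta (d.support.image g) ?_ _ fun s t h => ?_
  · refine card_image_le.trans (le_trans ?_ ((MvPolynomial.le_totalDegree hd).trans hp))
    rw [Finsupp.sum, card_eq_sum_ones]
    exact sum_le_sum fun i hi => Nat.one_le_iff_ne_zero.2 (Finsupp.mem_support_iff.1 hi)
  · congr 1
    refine prod_congr rfl fun i hi => ?_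
    have : pt g b s i = pt g b t i := by simp only [pt, h _ (mem_image_of_mem g hi)]
    rw [this]

end Pool.Agent.P.MP_7ffab6_lc.SD
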