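import Pool.Agent.P.MP_7ffab6_lc.SD.Iface

/-! Step N1. -/

set_option autoImplicit false
set_option linter.unusedSectionVars false

namespace Pool.Agent.P.MP_7ffab6_lc.SD

open Finset Filter

namespace N1x

theorem two_choose (j : ℕ) : 2 * (j + 1).choose 2 = (j + 1) * j := by
  induction j with
  | zero => simp
  | succ j ih =>
    rw [Nat.choose_succ_succ' (j + 1) 1, Nat.choose_one_right, mul_add, ih]
    ring

theorem sq_le_pow (s : ℕ) (hs : 4 ≤ s) : s * s ≤ 2 ^ s := by
  induction s, hs using Nat.le_induction with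
  | base => norm_num
  | succ s hs ih =>
    rw [pow_succ]
    nlinarith

end N1x

theorem p_N1 :
    S_N1 := by
  refine ⟨fun β c => ?_, fun G c hG => ?_, fun c => ?_⟩
  · refine eventually_atTop.2 ⟨2 * (6 * c + 8), fun K hK => ?_⟩
    obtain ⟨j, hj⟩ : ∃ j, K / 2 = j + 1 := ⟨K / 2 - 1, by omega⟩
    have hK2 : K ≤ 2 * j + 3 := by omega
    have hjc : 6 * c + 7 ≤ j := by omega
    rw [hj]
    have h2 := N1x.two_choose j
    have h3 : β * K * (j + 1) ≤ β * (2 * j + 3) * (j + 1) := by gcongr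
    have h4 : c * K ≤ c * (2 * j + 3) := by gcongr
    have h5 : 2 * (β * (2 * j + 3) * (j + 1)) ≤ 5 * β * ((j + 1) * j) := by
      have : 2 * (2 * j + 3) ≤ 5 * j := by omega
      calc 2 * (β * (2 * j + 3) * (j + 1)) = β * (j + 1) * (2 * (2 * j + 3)) := by ring
        _ ≤ β * (j + 1) * (5 * j) := by gcongr
        _ = 5 * β * ((j + 1) * j) := by ring
    have h6 : 2 * (c * (2 * j + 3)) < (j + 1) * j := by
      have : (j + 1) * (6 * c + 7) ≤ (j + 1) * j := by gcongr
      nlinarith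
    have h7 : 2 * ((5 * β + 1) * (j + 1).choose 2) = 5 * β * ((j + 1) * j) + (j + 1) * j := by
      calc 2 * ((5 * β + 1) * (j + 1).choose 2) = (5 * β + 1) * (2 * (j + 1).choose 2) := by ring
        _ = _ := by rw [h2]; ring
    omega
  · refine eventually_atTop.2 ⟨G * (2 * (8 * c * G + 4)), fun K hK => ?_⟩
    have hr : 2 * (8 * c * G + 4) ≤ K / G := by
      rw [Nat.le_div_iff_mul_le hG]; linarith [mul_comm G (2 * (8 * c * G + 4))]
    have hKlt : K < G * (K / G + 1) := Nat.lt_mul_div_succ K hG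
    generalize K / G = r at hr hKlt
    set s := r / 2 with hs
    have hs1 : 8 * c * G + 4 ≤ s := by omega
    have hs2 : r + 1 ≤ 2 * (s + 1) := by omega
    have hs3 : s + s ≤ r := by omega
    have h1 : K ≤ G * (2 * (s + 1)) := le_trans hKlt.le (by gcongr)
    have h2 : 2 ^ s + 1 ≤ 2 * 2 ^ s := by
      have : 1 ≤ 2 ^ s := Nat.one_le_two_pow
      omega
    have h3 : c * (G * (2 * (s + 1))) * 2 ≤ 2 ^ s := by
      have h4 := N1x.sq_le_pow s (by omega)
      have h5 : s + 1 ≤ 2 * s := by omega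
      calc c * (G * (2 * (s + 1))) * 2 ≤ c * (G * (2 * (2 * s))) * 2 := by gcongr
        _ = (8 * c * G) * s := by ring
        _ ≤ s * s := by gcongr; omega
        _ ≤ _ := h4
    calc c * K * (2 ^ s + 1) ≤ c * (G * (2 * (s + 1))) * (2 * 2 ^ s) := by gcongr
      _ = c * (G * (2 * (s + 1))) * 2 * 2 ^ s := by ring
      _ ≤ 2 ^ s * 2 ^ s := by gcongr
      _ = 2 ^ (s + s) := by rw [pow_add]
      _ ≤ 2 ^ r := Nat.pow_le_pow_right (by norm_num) hs3
  · refine eventually_atTop.2 ⟨256 * c ^ 3 + 16 * c, fun K hK => ?_⟩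
    have hu : Nat.sqrt (c * K) * Nat.sqrt (c * K) ≤ c * K := Nat.sqrt_le (c * K)
    generalize Nat.sqrt (c * K) = u at hu
    have h1 : 16 * c * u ≤ K := by
      have h2 : (16 * c * u) * (16 * c * u) ≤ K * K := by
        calc (16 * c * u) * (16 * c * u) = 256 * c ^ 2 * (u * u) := by ring
          _ ≤ 256 * c ^ 2 * (c * K) := by gcongr
          _ = 256 * c ^ 3 * K := by ring
          _ ≤ K * K := by gcongr; omega
      exact Nat.mul_self_le_mul_self_iff.1 h2
    have h3 : 16 * c ≤ K := by omega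
    have h4 : 2 * (8 * (c * (u + 1))) = 16 * c * u + 16 * c := by ring
    omega

end Pool.Agent.P.MP_7ffab6_lc.SD
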