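import Pool.Agent.P.MP_7ffab6_lc.SD.Iface

/-! Step N2. -/

set_option autoImplicit false
set_option linter.unusedSectionVars false

namespace Pool.Agent.P.MP_7ffab6_lc.SD

open Finset Filter

namespace N2x

theorem cube (C c : ℕ) : ∀ᶠ K : ℕ in atTop, C * (Nat.log 2 K + c) ^ 3 ≤ K := by
  have h1 : ∀ᶠ L : ℕ in atTop, C * (L + c) ^ 3 ≤ 2 ^ L := by
    have h := (tendsto_pow_const_div_const_pow_of_one_lt 3 (r := (2 : ℝ)) one_lt_two).eventually_lt_const
      (show (0 : ℝ) < 1 / (8 * C + 1) by positivity)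
    filter_upwards [h, eventually_ge_atTop c] with L h2 h3
    rw [div_lt_div_iff₀ (by positivity) (by positivity), one_mul] at h2
    have h4 : L ^ 3 * (8 * C + 1) < 2 ^ L := by exact_mod_cast h2
    have h5 : (L + c) ^ 3 ≤ (2 * L) ^ 3 := Nat.pow_le_pow_left (by omega) 3
    have h6 := Nat.mul_le_mul_left C h5
    nlinarith [Nat.zero_le (L ^ 3)]
  obtain ⟨L0, h2⟩ := eventually_atTop.1 h1
  filter_upwards [eventually_ge_atTop (2 ^ L0), eventually_ne_atTop 0] with K h3 h4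
  exact (h2 _ (Nat.le_log_of_pow_le one_lt_two h3)).trans (Nat.pow_log_le_self 2 h4)

theorem geo (K I : ℕ) : ((∑ i ∈ range I, Nat.sqrt (8 * K * 2 ^ i) : ℕ) : ℝ) ≤
    3 * √(8 * K * 2 ^ I) := by
  induction I with
  | zero => simp
  | succ I ih =>
    have h1 : (Nat.sqrt (8 * K * 2 ^ I) : ℝ) ≤ √(8 * K * 2 ^ I) := by
      simpa using Real.nat_sqrt_le_real_sqrt (a := 8 * K * 2 ^ I)
    have h2 : 4 / 3 * √(8 * K * 2 ^ I) ≤ √(8 * K * 2 ^ (I + 1)) := by
      refine Real.le_sqrt_of_sq_le ?_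
      have h3 : (0 : ℝ) ≤ 8 * K * 2 ^ I := by positivity
      rw [mul_pow, Real.sq_sqrt h3, pow_succ (2 : ℝ) I]
      nlinarith
    rw [sum_range_succ, Nat.cast_add]
    linarith

end N2x

theorem p_N2 :
    S_N2 := by
  refine ⟨fun c => ?_, fun K I h => ?_⟩
  · filter_upwards [N2x.cube (256 * (c + 1)) c] with K h
    have hs := Nat.sqrt_le (c * K * (Nat.log 2 K + c))
    generalize Nat.sqrt (c * K * (Nat.log 2 K + c)) = s at hs
    generalize Nat.log 2 K + c = T at h hs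
    have h1 : T ≤ T ^ 3 := Nat.le_self_pow (by omega) T
    have h2 : T * T ≤ T ^ 3 := by
      rcases Nat.eq_zero_or_pos T with rfl | h0
      · simp
      · calc T * T = T * T * 1 := (mul_one _).symm
          _ ≤ T * T * T := Nat.mul_le_mul_left _ h0
          _ = T ^ 3 := by ring
    have h3 : 256 * (c * T ^ 3) + 256 * T ^ 3 ≤ K := le_of_eq_of_le (by ring) h
    have h4 : 16 * (T * s) ≤ K := by
      refine Nat.mul_self_le_mul_self_iff.1 ?_
      calc 16 * (T * s) * (16 * (T * s)) = 256 * (T * T) * (s * s) := by ring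
        _ ≤ 256 * (T * T) * (c * K * T) := Nat.mul_le_mul_left _ hs
        _ = 256 * (c * T ^ 3) * K := by ring
        _ ≤ K * K := Nat.mul_le_mul_right _ (by omega)
    rw [mul_add T s 2]
    omega
  · have h1 := N2x.geo K I
    have h2 : (8192 : ℝ) * 2 ^ I ≤ K := by exact_mod_cast h
    have h3 : √(8 * K * 2 ^ I) ≤ K / 24 := by
      refine Real.sqrt_le_iff.2 ⟨by positivity, ?_⟩
      have h4 : (0 : ℝ) ≤ K := Nat.cast_nonneg K
      have h5 : (0 : ℝ) ≤ 2 ^ I := by positivity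
      nlinarith [mul_le_mul_of_nonneg_left h2 h4, mul_nonneg h4 h5]
    have h4 : (8 : ℝ) * (∑ i ∈ range I, Nat.sqrt (8 * K * 2 ^ i) : ℕ) ≤ K := by linarith
    exact_mod_cast h4

end Pool.Agent.P.MP_7ffab6_lc.SD
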