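import Pool.Agent.P.MP_7ffab6_lc.SD.Iface

/-! Step PAR. -/

set_option autoImplicit false
set_option linter.unusedSectionVars false

namespace Pool.Agent.P.MP_7ffab6_lc.SD

open Finset Filter

namespace PARx

lemma fac (B t : ℕ) : B * 2 ^ t + 1 ≤ 2 ^ (Nat.log 2 B + 2 + t) := by
  have h1 : B < 2 ^ (Nat.log 2 B + 1) := Nat.lt_pow_succ_log_self (by norm_num) B
  have h2 : 1 ≤ 2 ^ t := Nat.one_le_two_pow
  have h3 : 2 ^ (Nat.log 2 B + 2 + t) = 2 * (2 ^ (Nat.log 2 B + 1) * 2 ^ t) := by ring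
  rw [h3]
  nlinarith

lemma logmul (B K : ℕ) : Nat.log 2 (B * K) ≤ Nat.log 2 K + B := by
  have h1 : K < 2 ^ (Nat.log 2 K + 1) := Nat.lt_pow_succ_log_self (by norm_num) K
  have h2 : B < 2 ^ B := Nat.lt_two_pow_self
  have h3 : B * K < 2 ^ (Nat.log 2 K + B + 1) := by
    have h4 : 2 ^ (Nat.log 2 K + B + 1) = 2 ^ B * 2 ^ (Nat.log 2 K + 1) := by ring
    rw [h4]
    exact Nat.mul_lt_mul'' h2 h1
  rcases Nat.eq_zero_or_pos (B * K) with h0 | h0
  · simp [h0]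
  · exact Nat.lt_succ_iff.1 (Nat.log_lt_of_lt_pow h0.ne' h3)

lemma geo (I : ℕ) : ∑ i ∈ range I, 2 ^ (i + 1) + 2 = 2 * 2 ^ I := by
  induction I with
  | zero => simp
  | succ I ih => rw [sum_range_succ, pow_succ 2 I]; omega

lemma prodle (B I : ℕ) : ∏ i ∈ range I, (B * 2 ^ 2 ^ (i + 1) + 1) ≤
    2 ^ (I * (Nat.log 2 B + 2) + 2 * 2 ^ I) := by
  calc ∏ i ∈ range I, (B * 2 ^ 2 ^ (i + 1) + 1)
      ≤ ∏ i ∈ range I, 2 ^ (Nat.log 2 B + 2 + 2 ^ (i + 1)) :=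
        prod_le_prod' fun i _ => fac B _
    _ = 2 ^ (∑ i ∈ range I, (Nat.log 2 B + 2 + 2 ^ (i + 1))) := prod_pow_eq_pow_sum _ _ _
    _ ≤ _ := by
        refine Nat.pow_le_pow_right (by norm_num) ?_
        rw [sum_add_distrib, sum_const, card_range, smul_eq_mul]
        have := geo I
        omega

lemma sq1 (n : ℕ) : n ≤ (Nat.sqrt n + 1) * (Nat.sqrt n + 1) := (Nat.lt_succ_sqrt n).le

lemma p10a (q m B K t : ℕ) : 2 * (q ^ m * (B * 2 ^ t + 1) ^ K) ≤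
    2 ^ (q * m + 1 + K * (Nat.log 2 B + 2 + t)) := by
  have h1 : q ^ m ≤ (2 ^ q) ^ m := Nat.pow_le_pow_left Nat.lt_two_pow_self.le m
  have h2 : (B * 2 ^ t + 1) ^ K ≤ (2 ^ (Nat.log 2 B + 2 + t)) ^ K :=
    Nat.pow_le_pow_left (fac B t) K
  calc 2 * (q ^ m * (B * 2 ^ t + 1) ^ K)
      ≤ 2 * ((2 ^ q) ^ m * (2 ^ (Nat.log 2 B + 2 + t)) ^ K) :=
        Nat.mul_le_mul_left _ (Nat.mul_le_mul h1 h2)
    _ = _ := by
        rw [← pow_mul, ← pow_mul, pow_add, pow_add, pow_one, mul_comm K]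
        ring

lemma p10b (u v : ℕ) : u + v ≤ ((Nat.sqrt u + 1) + (Nat.sqrt v + 1)) *
    ((Nat.sqrt u + 1) + (Nat.sqrt v + 1)) := by
  have h1 := sq1 u
  have h2 := sq1 v
  nlinarith [Nat.zero_le ((Nat.sqrt u + 1) * (Nat.sqrt v + 1))]

end PARx

open PARx in
theorem p_PAR (hN1 : S_N1) (hN2 : S_N2) (hN3 : S_N3) :
    S_PAR := by
  intro β A
  obtain ⟨q, hq⟩ : ∃ q, q = 4 * (5 * β + 1) := ⟨_, rfl⟩
  obtain ⟨B0, hB0⟩ : ∃ B0, B0 = 4 * β + A + 12 := ⟨_, rfl⟩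
  obtain ⟨L, hL⟩ : ∃ L, L = 2 * β + 2 * B0 + A + 4 := ⟨_, rfl⟩
  obtain ⟨M, hM⟩ : ∃ M, M = 4 ^ (5 * β + 2) * L := ⟨_, rfl⟩
  obtain ⟨J, hJ⟩ : ∃ J, J = 2 * β * 65536 := ⟨_, rfl⟩
  have hq0 : 0 < q := by omega
  have hL0 : 0 < L := by omega
  have hM0 : 0 < M := by rw [hM]; positivity
  obtain ⟨x, c, hx0, hx1, hc, h3⟩ := hN3 65536 q M (by norm_num) hq0 hM0
  refine ⟨c, hc, ?_⟩
  filter_upwards [hN1.1 β (q * M + M + A + 2), hN1.2.1 65536 (β + 3 + q * M + B0) (by norm_num),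
    hN1.2.2 (J + 4 * (q * M + 1)), hN2.1 (q * M + B0 + 7), eventually_ge_atTop (3 * 65536),
    eventually_ge_atTop (J + 1)] with K e1 e2 e3 e4 e5 e6
  obtain ⟨e4, e7⟩ := e4
  have hK : 1 ≤ K := by omega
  obtain ⟨r, hr⟩ : ∃ r, r = K / 65536 := ⟨_, rfl⟩
  rw [← hr] at e2
  have hr1 : 3 ≤ r := by omega
  have hr2 : 65536 * r ≤ K := by omega
  have hr3 : K ≤ 2 * 65536 * r := by omega
  obtain ⟨I, hI⟩ : ∃ I, I = Nat.clog 2 (2 * r + 2) := ⟨_, rfl⟩
  have hI1 : 2 * r + 2 ≤ 2 ^ I := hI ▸ Nat.le_pow_clog (by norm_num) _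
  have hI2 : 8192 * 2 ^ I ≤ K := by
    have h1 : 2 ^ (Nat.clog 2 (2 * r + 2)).pred < 2 * r + 2 :=
      Nat.pow_pred_clog_lt_self (by norm_num) (by omega)
    rw [← hI] at h1
    have h2 : 2 ^ I ≤ 2 * 2 ^ I.pred := by
      cases I with
      | zero => simp
      | succ I => rw [Nat.pred_succ, pow_succ]; omega
    omega
  have hI3 : I ≤ Nat.log 2 K := Nat.le_log_of_pow_le (by norm_num) (by omega)
  have hI4 : I ≤ K := by
    have : I < 2 ^ I := Nat.lt_two_pow_self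
    omega
  have hlog := logmul B0 K
  obtain ⟨lg, hlg⟩ : ∃ lg, lg = Nat.log 2 K := ⟨_, rfl⟩
  rw [← hlg] at e4 e7 hI3 hlog
  have hK2 : K < 2 ^ K := Nat.lt_two_pow_self
  obtain ⟨C, hC⟩ : ∃ C, C = (K / 2).choose 2 := ⟨_, rfl⟩
  refine ⟨x, M * K, q, 5 * β + 2, L * K, r, J, Nat.sqrt (4 * (q * (M * K) + 1)) + 1, B0 * K, I,
    2 ^ (r / 2), fun i => (Nat.sqrt (4 * (q * (M * K) + 1 + K * (Nat.log 2 (B0 * K) + 2))) + 1) +
      (Nat.sqrt (8 * K * 2 ^ i) + 1),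
    fun i => q * (M * K) + 1 + K * (Nat.log 2 (B0 * K) + 2 + 2 ^ (i + 1)),
    hK, by rw [hM]; ring, by positivity, hq0, ?_, ?_, hx0, hx1, ?_, ?_, ?_, sq1 _, ?_, hI1, ?_,
    ?_, ?_, ?_, ?_⟩
  · rw [← hC] at e1 ⊢
    have h1 : (q * M + M + A + 2) * K = q * (M * K) + M * K + (A + 2) * K := by ring
    have h2 : (5 * β + 2) * C = (5 * β + 1) * C + C := by ring
    omega
  · rw [← hC] at e1 ⊢
    have h1 : q * C / 4 = (5 * β + 1) * C := by
      rw [hq, mul_assoc, Nat.mul_div_cancel_left _ (by norm_num)]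
    have h2 : (q * M + M + A + 2) * K = q * (M * K) + M * K + (A + 2) * K := by ring
    omega
  · intro D hD
    have := h3 K D e5 hD
    rw [← hr] at this
    push_cast
    exact this
  · refine le_trans ?_ e2
    obtain ⟨d, hd⟩ : ∃ d, d = 2 ^ (r / 2) := ⟨_, rfl⟩
    rw [← hd]
    have h1 : (β + 2) * K * (d + 1) = β * K + 2 * K + (β + 2) * K * d := by ring
    have h0 : (q * M + 1) * K = q * (M * K) + K := by ring
    have h2 : (q * (M * K) + 1) * (d + 1) ≤ (q * M + 1) * K * (d + 1) :=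
      Nat.mul_le_mul_right _ (by omega)
    have h4 : (β + 3 + q * M + B0) * K * (d + 1) =
        (β + 2) * K * (d + 1) + (q * M + 1) * K * (d + 1) + B0 * K * (d + 1) := by ring
    omega
  · calc β * K ≤ β * (2 * 65536 * r) := Nat.mul_le_mul_left β hr3
      _ = _ := by rw [hJ]; ring
  · have h1 : B0 * K = 4 * (β * K) + A * K + 12 * K := by rw [hB0]; ring
    omega
  · intro i _
    refine ⟨p10a _ _ _ _ _, le_trans (le_of_eq ?_) (p10b _ _)⟩
    ring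
  · have s1 := hN2.2 K I hI2
    have s2 : J * (Nat.sqrt (4 * (q * (M * K) + 1)) + 1) ≤
        (J + 4 * (q * M + 1)) * (Nat.sqrt ((J + 4 * (q * M + 1)) * K) + 1) := by
      refine Nat.mul_le_mul (by omega) (Nat.succ_le_succ (Nat.sqrt_le_sqrt ?_))
      have h1 : (J + 4 * (q * M + 1)) * K = J * K + 4 * (q * (M * K)) + 4 * K := by ring
      omega
    have s3 : I * (Nat.sqrt (4 * (q * (M * K) + 1 + K * (Nat.log 2 (B0 * K) + 2))) + 2) ≤
        (lg + (q * M + B0 + 7)) *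
          (Nat.sqrt ((q * M + B0 + 7) * K * (lg + (q * M + B0 + 7))) + 2) := by
      refine Nat.mul_le_mul (by omega) (Nat.add_le_add_right (Nat.sqrt_le_sqrt ?_) 2)
      have t1 : q * (M * K) + 1 + K * (Nat.log 2 (B0 * K) + 2) ≤ K * (lg + (q * M + B0 + 7)) := by
        have h1 := Nat.mul_le_mul_left K (Nat.add_le_add_right hlog 2)
        have h2 : K * (lg + (q * M + B0 + 7)) = K * (lg + B0 + 2) + q * (M * K) + 5 * K := by ring
        omega
      calc 4 * (q * (M * K) + 1 + K * (Nat.log 2 (B0 * K) + 2))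
          ≤ (q * M + B0 + 7) * (K * (lg + (q * M + B0 + 7))) := Nat.mul_le_mul (by omega) t1
        _ = _ := by ring
    have s4 : ∑ i ∈ range I,
        ((Nat.sqrt (4 * (q * (M * K) + 1 + K * (Nat.log 2 (B0 * K) + 2))) + 1) +
          (Nat.sqrt (8 * K * 2 ^ i) + 1)) =
        I * (Nat.sqrt (4 * (q * (M * K) + 1 + K * (Nat.log 2 (B0 * K) + 2))) + 2) +
          ∑ i ∈ range I, Nat.sqrt (8 * K * 2 ^ i) := by
      rw [sum_add_distrib, sum_add_distrib (f := fun i => Nat.sqrt (8 * K * 2 ^ i))]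
      simp only [sum_const, card_range, smul_eq_mul]
      ring
    rw [s4]
    omega
  · have t1 : J + 1 ≤ 2 ^ K := by omega
    have t2 : 2 ^ (r * J) ≤ 2 ^ (2 * β * K) := by
      refine Nat.pow_le_pow_right (by norm_num) ?_
      calc r * J = 2 * β * (65536 * r) := by rw [hJ]; ring
        _ ≤ _ := Nat.mul_le_mul_left (2 * β) hr2
    have t3 : ∏ i ∈ range I, (B0 * K * 2 ^ 2 ^ (i + 1) + 1) ≤ 2 ^ (K + K) := by
      refine (prodle _ _).trans (Nat.pow_le_pow_right (by norm_num) ?_)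
      have : I * (Nat.log 2 (B0 * K) + 2) ≤ (lg + (q * M + B0 + 7)) * (lg + (q * M + B0 + 7)) :=
        Nat.mul_le_mul (by omega) (by omega)
      omega
    calc _ ≤ 2 ^ K * 2 ^ (2 * β * K) * 2 ^ (K + K) * 2 ^ (2 * (B0 * K)) * 2 ^ ((A + 1) * K) :=
          Nat.mul_le_mul_right _ (Nat.mul_le_mul_right _ (Nat.mul_le_mul (Nat.mul_le_mul t1 t2) t3))
      _ = _ := by
          rw [← pow_add, ← pow_add, ← pow_add, ← pow_add, hL]
          congr 1
          ring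
  · calc 2 * (J + I) * 2 ^ ((A + 2) * K) ≤ 2 ^ (K + 2) * 2 ^ ((A + 2) * K) := by
          refine Nat.mul_le_mul_right _ ?_
          rw [pow_add]
          omega
      _ ≤ _ := by
          rw [← pow_add]
          refine Nat.pow_le_pow_right (by norm_num) ?_
          have h1 : B0 * K = 4 * (β * K) + (A + 2) * K + 10 * K := by rw [hB0]; ring
          omega
  · refine le_trans ?_ e2
    calc B0 * K ≤ (β + 3 + q * M + B0) * K := Nat.mul_le_mul_right _ (by omega)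
      _ ≤ _ := Nat.le_mul_of_pos_right _ (by positivity)

end Pool.Agent.P.MP_7ffab6_lc.SD
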