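import Pool.Agent.P.MP_7ffab6_lc.SD.Iface

/-! Step PAT. -/

set_option autoImplicit false
set_option linter.unusedSectionVars false

namespace Pool.Agent.P.MP_7ffab6_lc.SD

open Finset Filter

namespace PATx

lemma sum_choose (N k : ℕ) : ∑ j ∈ range (k + 1), N.choose j ≤ (N + 1) ^ k := by
  induction k with
  | zero => simp
  | succ k ih =>
    rw [sum_range_succ']
    have h : ∑ j ∈ range (k + 1), N.choose (j + 1) ≤ ∑ j ∈ range (k + 1), N * N.choose j := by
      refine sum_le_sum fun j _ => ?_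
      calc N.choose (j + 1) ≤ N.choose (j + 1) * (j + 1) := Nat.le_mul_of_pos_right _ j.succ_pos
        _ = N.choose j * (N - j) := Nat.choose_succ_right_eq N j
        _ ≤ N.choose j * N := Nat.mul_le_mul_left _ (Nat.sub_le _ _)
        _ = N * N.choose j := mul_comm _ _
    rw [← mul_sum] at h
    have h1 : 1 ≤ (N + 1) ^ k := Nat.one_le_pow _ _ N.succ_pos
    have h2 := Nat.mul_le_mul_left N ih
    rw [Nat.choose_zero_right, pow_succ]
    nlinarith

lemma small {τ : Type} [Fintype τ] [DecidableEq τ] (W : Submodule ℝ (τ → ℝ)) (d : ℕ)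
    (hd : Module.finrank ℝ W ≤ d) (s : Finset τ)
    (hs : ∀ u ⊆ s, ∃ w ∈ W, ∀ t ∈ s, 1 / 2 ≤ w t ↔ t ∈ u) : s.card ≤ d + 1 := by
  classical
  by_contra hlt
  let Φ : (s → ℝ) →ₗ[ℝ] (Module.Dual ℝ W) × ℝ :=
    { toFun := fun c => (
        { toFun := fun w => ∑ i : s, c i * w.1 i
          map_add' := fun w w' => by simp [mul_add, sum_add_distrib]
          map_smul' := fun a w => by simp [mul_sum, mul_left_comm] }, ∑ i : s, c i)
      map_add' := fun c c' => by
        ext w <;> simp [add_mul, sum_add_distrib]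
      map_smul' := fun a c => by
        ext w <;> simp [mul_sum, mul_assoc] }
  have hk : LinearMap.ker Φ ≠ ⊥ := LinearMap.ker_ne_bot_of_finrank_lt (by
    rw [Module.finrank_prod, Subspace.dual_finrank_eq, Module.finrank_self,
      Module.finrank_fintype_fun_eq_card, Fintype.card_coe]
    omega)
  obtain ⟨c, hc, hc0⟩ := Submodule.exists_mem_ne_zero_of_ne_bot hk
  rw [LinearMap.mem_ker] at hc
  have h1 : ∀ w ∈ W, ∑ i : s, c i * w i = 0 := fun w hw =>
    congrArg (fun x : (Module.Dual ℝ W) × ℝ => x.1 ⟨w, hw⟩) hc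
  have h2 : ∑ i : s, c i = 0 := congrArg Prod.snd hc
  obtain ⟨i, hi⟩ : ∃ i, c i < 0 := by
    by_contra hn
    push Not at hn
    exact hc0 (funext fun i => (sum_eq_zero_iff_of_nonneg fun j _ => hn j).1 h2 i (mem_univ i))
  obtain ⟨w, hw, e⟩ := hs (s.filter fun t => ∃ h : t ∈ s, 0 ≤ c ⟨t, h⟩) (filter_subset _ _)
  have e' : ∀ j : s, 1 / 2 ≤ w j ↔ 0 ≤ c j := fun j => by
    rw [e j j.2, mem_filter]
    exact ⟨fun h => h.2.2, fun h => ⟨j.2, j.2, h⟩⟩
  have h3 : 0 < ∑ j : s, c j * (w j - 1 / 2) := by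
    refine sum_pos' (fun j _ => ?_) ⟨i, mem_univ i, ?_⟩
    · by_cases hj : 0 ≤ c j
      · exact mul_nonneg hj (sub_nonneg.2 ((e' j).2 hj))
      · exact mul_nonneg_of_nonpos_of_nonpos (not_le.1 hj).le
          (sub_nonpos.2 (not_le.1 fun h => hj ((e' j).1 h)).le)
    · exact mul_pos_of_neg_of_neg hi (sub_neg.2 (not_le.1 fun h => not_le.2 hi ((e' i).1 h)))
  simp only [mul_sub, sum_sub_distrib, ← sum_mul, h1 w hw, h2] at h3
  simp at h3

end PATx

theorem p_PAT :
    S_PAT := by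
  classical
  intro τ _ _ W d hd
  refine ⟨univ.filter fun u : Finset τ => ∃ w ∈ W, (univ.filter fun t => 1 / 2 ≤ w t) = u, ?_,
    fun w hw => mem_filter.2 ⟨mem_univ _, w, hw, rfl⟩⟩
  refine (card_le_card_shatterer _).trans (card_shatterer_le_sum_vcDim.trans ?_)
  refine le_trans (sum_le_sum_of_subset fun j hj => ?_) (PATx.sum_choose _ (d + 1))
  rw [mem_range, Nat.lt_succ_iff]
  refine (mem_Iic.1 hj).trans (Finset.sup_le fun s hs => PATx.small W d hd s fun u hu => ?_)
  obtain ⟨v, hv, e⟩ := mem_shatterer.1 hs hu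
  obtain ⟨w, hw, rfl⟩ := (mem_filter.1 hv).2
  refine ⟨w, hw, fun t ht => ?_⟩
  rw [← e]
  simp [ht]

end Pool.Agent.P.MP_7ffab6_lc.SD
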