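import Pool.Agent.P.MP_7ffab6_lc.SD.Iface

/-! Step RND. -/

set_option autoImplicit false
set_option linter.unusedSectionVars false

namespace Pool.Agent.P.MP_7ffab6_lc.SD

open Finset Filter

theorem p_RND :
    S_RND := by
  classical
  intro n τ good lab h K Δ Δ' a k β₁ β₂ hRP hk hβ h1 h2 H hH
  obtain ⟨Hv, N, hHv, hN, hcov⟩ := hRP H hH
  have hsub : (good.filter fun t => k + a ≤ (lab t ∩ H).card) ⊆
      (good.filter fun t => k ≤ (lab t ∩ Hv).card) ∪
        H.biUnion fun w => good.filter fun t => k ≤ (lab t ∩ N w).card := by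
    intro t ht
    obtain ⟨htg, htk⟩ := mem_filter.1 ht
    rcases hcov k hk t htg htk with h' | ⟨w, hw, h'⟩
    · exact mem_union_left _ (mem_filter.2 ⟨htg, h'⟩)
    · exact mem_union_right _ (mem_biUnion.2 ⟨w, hw, mem_filter.2 ⟨htg, h'⟩⟩)
  have hc : (good.filter fun t => k + a ≤ (lab t ∩ H).card).card ≤
      (good.filter fun t => k ≤ (lab t ∩ Hv).card).card +
        ∑ w ∈ H, (good.filter fun t => k ≤ (lab t ∩ N w).card).card :=
    (card_le_card hsub).trans ((card_union_le _ _).trans (Nat.add_le_add_left card_biUnion_le _))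
  have hc' : ((good.filter fun t => k + a ≤ (lab t ∩ H).card).card : ℝ) ≤
      ((good.filter fun t => k ≤ (lab t ∩ Hv).card).card : ℝ) +
        ∑ w ∈ H, ((good.filter fun t => k ≤ (lab t ∩ N w).card).card : ℝ) := by
    exact_mod_cast hc
  have hs : ∑ w ∈ H, ((good.filter fun t => k ≤ (lab t ∩ N w).card).card : ℝ) ≤ (h : ℝ) * β₂ := by
    calc ∑ w ∈ H, ((good.filter fun t => k ≤ (lab t ∩ N w).card).card : ℝ)
        ≤ ∑ _w ∈ H, β₂ := sum_le_sum fun w _ => h2 (N w) (hN w)
      _ = (H.card : ℝ) * β₂ := by rw [sum_const, nsmul_eq_mul]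
      _ ≤ (h : ℝ) * β₂ := mul_le_mul_of_nonneg_right (by exact_mod_cast hH) hβ
  have := h1 Hv hHv
  linarith

end Pool.Agent.P.MP_7ffab6_lc.SD
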