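import Pool.Agent.P.MP_7ffab6_lc.SD.Iface

/-! Step RP1. -/

set_option autoImplicit false
set_option linter.unusedSectionVars false

namespace Pool.Agent.P.MP_7ffab6_lc.SD

open Finset Filter

theorem p_RP1 (hSTEP : S_STEP) :
    S_RP1 := by
  intro n m q g b PP A good lab h K z y Δ Δ' a hC hA hl hg h1 h2 h3 H hH
  obtain ⟨F, hF, hT⟩ := hC H A hH hA
  obtain ⟨Hv, N, a1, a2, a3⟩ := hSTEP n F z Δ Δ' a y hF h1 h2 h3
  refine ⟨Hv, N, a1, a2, fun k _ t ht hk => ?_⟩
  have e : (H.filter fun u => t ∈ A u) = lab t ∩ H := by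
    ext u; simp [hl, and_comm]
  have h4 := hT t
  rw [e] at h4
  have h5 : ∀ X, (lab t ∩ H ∩ X).card ≤ (lab t ∩ X).card := fun X =>
    card_le_card (inter_subset_inter inter_subset_left Subset.rfl)
  rcases a3 _ (h4 ((hg t ht).mono inter_subset_left)) with h6 | ⟨w, hw, h6⟩
  · exact .inl (by have := h5 Hv; omega)
  · exact .inr ⟨w, (mem_inter.1 hw).2, by have := h5 (N w); omega⟩

end Pool.Agent.P.MP_7ffab6_lc.SD
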