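import Pool.Agent.P.MP_7ffab6_lc.SD.Iface

/-! Step RP2. -/

set_option autoImplicit false
set_option linter.unusedSectionVars false

namespace Pool.Agent.P.MP_7ffab6_lc.SD

open Finset Filter

theorem p_RP2 (hSTEP : S_STEP) :
    S_RP2 := by
  intro n m q g b good lab h K z y Δ Δ' a hC hg h1 h2 h3 H hH
  obtain ⟨F, hF, hF'⟩ := hC H hH
  obtain ⟨Hv, N, h4, h5, h6⟩ := hSTEP n F z Δ Δ' a y hF h1 h2 h3
  refine ⟨Hv, N, h4, h5, fun k hk t ht h7 => ?_⟩
  obtain ⟨T, hT, h8⟩ := exists_subset_card_eq h7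
  have hl : T ⊆ lab t := hT.trans inter_subset_left
  have hr : T ⊆ H := hT.trans inter_subset_right
  have key : ∀ S : Finset (Fin n), T.card ≤ (T ∩ S).card + a → k ≤ (lab t ∩ S).card := fun S h9 => by
    have := card_le_card (inter_subset_inter_right (u := S) hl)
    omega
  exact (h6 T (hF' t T hr (h8.trans_le hk) ((hg t ht).mono hl))).imp (key _)
    fun ⟨w, hw, h9⟩ => ⟨w, hr hw, key _ h9⟩

end Pool.Agent.P.MP_7ffab6_lc.SD
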