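import Pool.Agent.P.MP_7ffab6_lc.SD.Iface

/-! Step STEP. -/

set_option autoImplicit false
set_option linter.unusedSectionVars false

namespace Pool.Agent.P.MP_7ffab6_lc.SD

open Finset Filter

namespace STEPx

variable {n : ℕ}

/-- neighbours of `w` along the edges of `E` -/
def nb (E : Finset (Edge n)) (w : Fin n) : Finset (Fin n) :=
  univ.filter fun v => ∃ e ∈ E, e.1 = s(w, v)

lemma mem_nb {E : Finset (Edge n)} {w v : Fin n} : v ∈ nb E w ↔ ∃ e ∈ E, e.1 = s(w, v) := by
  simp only [nb, mem_filter, mem_univ, true_and]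

lemma two (e : Sym2 (Fin n)) :
    (univ.filter fun p : Fin n × Fin n => e = s(p.1, p.2)).card ≤ 2 := by
  induction e using Sym2.ind with
  | _ u v =>
    have : (univ.filter fun p : Fin n × Fin n => s(u, v) = s(p.1, p.2)) ⊆ {(u, v), (v, u)} := by
      rintro ⟨x, y⟩ hp
      have h := (mem_filter.1 hp).2
      rw [Sym2.eq_iff] at h
      rcases h with ⟨h1, h2⟩ | ⟨h1, h2⟩
      · simp only at h1 h2
        subst h1; subst h2; simp
      · simp only at h1 h2
        subst h1; subst h2; simp
    exact (card_le_card this).trans card_le_two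

lemma sum_nb (E : Finset (Edge n)) : ∑ w, (nb E w).card ≤ 2 * E.card := by
  classical
  have h1 : ∑ w, (nb E w).card =
      (univ.filter fun p : Fin n × Fin n => ∃ e ∈ E, e.1 = s(p.1, p.2)).card := by
    rw [card_filter, ← univ_product_univ, sum_product]
    refine sum_congr rfl fun w _ => ?_
    rw [nb, card_filter]
  rw [h1]
  have h2 : (univ.filter fun p : Fin n × Fin n => ∃ e ∈ E, e.1 = s(p.1, p.2)) ⊆
      E.biUnion fun e => univ.filter fun p : Fin n × Fin n => e.1 = s(p.1, p.2) := by
    intro p hp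
    obtain ⟨e, he, h⟩ := (mem_filter.1 hp).2
    exact mem_biUnion.2 ⟨e, he, mem_filter.2 ⟨mem_univ _, h⟩⟩
  refine (card_le_card h2).trans (card_biUnion_le.trans ?_)
  calc ∑ e ∈ E, (univ.filter fun p : Fin n × Fin n => e.1 = s(p.1, p.2)).card
      ≤ ∑ _e ∈ E, 2 := sum_le_sum fun e _ => two e.1
    _ = 2 * E.card := by rw [sum_const, smul_eq_mul, mul_comm]

lemma big (E : Finset (Edge n)) (d : ℕ) :
    d * (univ.filter fun w => d ≤ (nb E w).card).card ≤ 2 * E.card := by
  refine le_trans ?_ (sum_nb E)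
  calc d * (univ.filter fun w => d ≤ (nb E w).card).card
      = ∑ _w ∈ univ.filter fun w => d ≤ (nb E w).card, d := by
        rw [sum_const, smul_eq_mul, mul_comm]
    _ ≤ ∑ w ∈ univ.filter fun w => d ≤ (nb E w).card, (nb E w).card :=
        sum_le_sum fun w hw => (mem_filter.1 hw).2
    _ ≤ ∑ w, (nb E w).card := sum_le_sum_of_subset (filter_subset _ _)

end STEPx

open STEPx

theorem p_STEP :
    S_STEP := by
  classical
  intro n F z Δ Δ' a y hF hΔ hz hy
  refine ⟨univ.filter fun w => Δ ≤ (nb F w).card,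
    fun w => if Δ ≤ (nb F w).card then ∅ else insert w (nb F w), ?_, ?_, ?_⟩
  · have h1 := big F Δ
    have h2 : Δ * (univ.filter fun w => Δ ≤ (nb F w).card).card ≤ Δ * Δ' := by omega
    exact Nat.le_of_mul_le_mul_left h2 (by omega)
  · intro w
    by_cases h : Δ ≤ (nb F w).card
    · simp [h]
    · simp only [h, if_false]
      have := card_insert_le w (nb F w)
      omega
  · intro T hT
    have hb := big (ein T \ F) (a + 1)
    have hb' : (univ.filter fun w => a + 1 ≤ (nb (ein T \ F) w).card).card ≤ a := by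
      by_contra hc
      have h3 : a + 1 ≤ (univ.filter fun w => a + 1 ≤ (nb (ein T \ F) w).card).card := by omega
      have h4 := Nat.mul_le_mul_left (a + 1) h3
      nlinarith
    by_cases hex : ∃ w ∈ T, ¬ Δ ≤ (nb F w).card ∧ (nb (ein T \ F) w).card ≤ a
    · obtain ⟨w, hw, h1, h2⟩ := hex
      refine Or.inr ⟨w, hw, ?_⟩
      simp only [h1, if_false]
      have hs : T ⊆ (T ∩ insert w (nb F w)) ∪ nb (ein T \ F) w := by
        intro v hv
        by_cases hvw : v = w
        · exact mem_union_left _ (mem_inter.2 ⟨hv, hvw ▸ mem_insert_self _ _⟩)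
        · have hd : ¬ (s(w, v) : Sym2 (Fin n)).IsDiag := by
            rw [Sym2.mk_isDiag_iff]; exact fun h => hvw h.symm
          have he : (⟨s(w, v), hd⟩ : Edge n) ∈ ein T := by
            refine mem_ein.2 fun u hu => ?_
            rcases Sym2.mem_iff.1 hu with h | h
            · exact h ▸ hw
            · exact h ▸ hv
          by_cases hF' : (⟨s(w, v), hd⟩ : Edge n) ∈ F
          · exact mem_union_left _
              (mem_inter.2 ⟨hv, mem_insert_of_mem (mem_nb.2 ⟨_, hF', rfl⟩)⟩)
          · exact mem_union_right _ (mem_nb.2 ⟨_, mem_sdiff.2 ⟨he, hF'⟩, rfl⟩)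
      have := (card_le_card hs).trans (card_union_le _ _)
      omega
    · refine Or.inl ?_
      have hs : T ⊆ (T ∩ univ.filter fun w => Δ ≤ (nb F w).card) ∪
          univ.filter fun w => a + 1 ≤ (nb (ein T \ F) w).card := by
        intro v hv
        by_cases h1 : Δ ≤ (nb F v).card
        · exact mem_union_left _ (mem_inter.2 ⟨hv, mem_filter.2 ⟨mem_univ _, h1⟩⟩)
        · refine mem_union_right _ (mem_filter.2 ⟨mem_univ _, ?_⟩)
          by_contra h2
          exact hex ⟨v, hv, h1, by omega⟩
      have := (card_le_card hs).trans (card_union_le _ _)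
      omega

end Pool.Agent.P.MP_7ffab6_lc.SD
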