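import Pool.Agent.P.MP_7ffab6_lc.SD.TUB
import Pool.Agent.P.MP_7ffab6_lc.SD.TCOVER
import Pool.Agent.P.MP_7ffab6_lc.SD.TC1
import Pool.Agent.P.MP_7ffab6_lc.SD.TC2
import Pool.Agent.P.MP_7ffab6_lc.SD.TSTEP
import Pool.Agent.P.MP_7ffab6_lc.SD.TRP1
import Pool.Agent.P.MP_7ffab6_lc.SD.TRP2
import Pool.Agent.P.MP_7ffab6_lc.SD.TRND
import Pool.Agent.P.MP_7ffab6_lc.SD.TCH
import Pool.Agent.P.MP_7ffab6_lc.SD.TEIN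
import Pool.Agent.P.MP_7ffab6_lc.SD.TGEX
import Pool.Agent.P.MP_7ffab6_lc.SD.TBASE
import Pool.Agent.P.MP_7ffab6_lc.SD.TBD0
import Pool.Agent.P.MP_7ffab6_lc.SD.TPAT
import Pool.Agent.P.MP_7ffab6_lc.SD.TDIM
import Pool.Agent.P.MP_7ffab6_lc.SD.TMEM
import Pool.Agent.P.MP_7ffab6_lc.SD.TAVG
import Pool.Agent.P.MP_7ffab6_lc.SD.TN1
import Pool.Agent.P.MP_7ffab6_lc.SD.TN2
import Pool.Agent.P.MP_7ffab6_lc.SD.TN3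
import Pool.Agent.P.MP_7ffab6_lc.SD.TPAR
import Pool.Agent.P.MP_7ffab6_lc.SD.TDET
import Pool.Agent.P.MP_7ffab6_lc.SD.TMAIN
import Pool.Agent.P.MP_7ffab6_lc.SD.TFIN

/-! Assembly of the steps. -/

set_option autoImplicit false

namespace Pool.Agent.P.MP_7ffab6_lc.SD

theorem small_degree : S_FIN :=
  p_FIN (p_MAIN (p_C1 (p_COVER p_UB)) (p_C2 (p_COVER p_UB)) (p_GEX p_EIN) (p_BASE p_UB p_EIN)
    p_PAT p_DIM p_MEM p_AVG (p_PAR p_N1 p_N2 p_N3)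
    (p_DET (p_RP1 p_STEP) (p_RP2 p_STEP) (p_CH p_RND) p_BD0))

end Pool.Agent.P.MP_7ffab6_lc.SD
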