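import Pool.Agent.P.MP_7ffab6_lc.Defs

/-! Random boxes of graphs and the counting predicates. -/

set_option autoImplicit false
set_option linter.unusedSectionVars false

namespace Pool.Agent.P.MP_7ffab6_lc.SD

open Finset

variable {n m q : ℕ}

/-- the edges inside a vertex set -/
def ein (T : Finset (Fin n)) : Finset (Edge n) := univ.filter fun e => ∀ v ∈ e.1, v ∈ T

/-- the point of the box with address `t` -/
def pt (g : Edge n → Fin m) (b : Edge n × Fin q → Bool) (t : Fin m → Fin q) : Edge n → Bool :=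
  fun e => b (e, t (g e))

/-- the (edge, sample) pairs read by the set `T` at the address `t` -/
def prs (g : Edge n → Fin m) (t : Fin m → Fin q) (T : Finset (Fin n)) : Finset (Edge n × Fin q) :=
  (ein T).image fun e => (e, t (g e))

/-- all bits in `F` are one -/
def On {P : Type} (b : P → Bool) (F : Finset P) : Prop := ∀ p ∈ F, b p = true

/-- `T` is a clique of `x` -/
def Cl (x : Edge n → Bool) (T : Finset (Fin n)) : Prop := ∀ e ∈ ein T, x e = true

/-- functions on the box spanned by indicators which read at most `D` coordinates -/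
def Wd (m q D : ℕ) : Submodule ℝ ((Fin m → Fin q) → ℝ) :=
  Submodule.span ℝ {φ | ∃ J : Finset (Fin m), J.card ≤ D ∧ ∃ a : Fin m → Fin q,
    φ = fun t => if ∀ j ∈ J, t j = a j then 1 else 0}

/-- few good points have `k` label vertices in a set of size at most `h` -/
def Bd {τ : Type} (good : Finset τ) (lab : τ → Finset (Fin n)) (h k : ℕ) (β : ℝ) : Prop :=
  ∀ H : Finset (Fin n), H.card ≤ h →
    ((good.filter fun t => k ≤ (lab t ∩ H).card).card : ℝ) ≤ β

/-- one round of the light / heavy recursion -/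
def RP {τ : Type} (good : Finset τ) (lab : τ → Finset (Fin n)) (h K Δ Δ' a : ℕ) : Prop :=
  ∀ H : Finset (Fin n), H.card ≤ h → ∃ (Hv : Finset (Fin n)) (N : Fin n → Finset (Fin n)),
    Hv.card ≤ Δ' ∧ (∀ w, (N w).card ≤ Δ) ∧ ∀ k, k + a ≤ K → ∀ t ∈ good,
      k + a ≤ (lab t ∩ H).card → k ≤ (lab t ∩ Hv).card ∨ ∃ w ∈ H, k ≤ (lab t ∩ N w).card

/-- sparse cover of the labels given by patterns -/
def C1 (g : Edge n → Fin m) (b : Edge n × Fin q → Bool) (PP : Finset (Finset (Fin m → Fin q)))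
    (h z y : ℕ) : Prop :=
  ∀ (H : Finset (Fin n)) (A : Fin n → Finset (Fin m → Fin q)), H.card ≤ h → (∀ u, A u ∈ PP) →
    ∃ F : Finset (Edge n), F.card ≤ z ∧ ∀ t, Cl (pt g b t) (H.filter fun u => t ∈ A u) →
      (ein (H.filter fun u => t ∈ A u) \ F).card ≤ y

/-- sparse cover of all small cliques in a list -/
def C2 (g : Edge n → Fin m) (b : Edge n × Fin q → Bool) (h K z y : ℕ) : Prop :=
  ∀ H : Finset (Fin n), H.card ≤ h → ∃ F : Finset (Edge n), F.card ≤ z ∧
    ∀ (t : Fin m → Fin q) (T : Finset (Fin n)), T ⊆ H → T.card ≤ K → Cl (pt g b t) T →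
      (ein T \ F).card ≤ y

/-- no small family of groups carries more than half of the edges of a `k`-set -/
def Gd (g : Edge n → Fin m) (k l : ℕ) : Prop :=
  ∀ T : Finset (Fin n), T.card = k → ∀ Γ : Finset (Fin m), Γ.card ≤ l →
    2 * ((ein T).filter fun e => g e ∈ Γ).card ≤ k.choose 2

lemma mem_ein {T : Finset (Fin n)} {e : Edge n} : e ∈ ein T ↔ ∀ v ∈ e.1, v ∈ T := by
  simp [ein]

lemma ein_mono {S T : Finset (Fin n)} (h : S ⊆ T) : ein S ⊆ ein T :=
  fun _ he => mem_ein.2 fun v hv => h (mem_ein.1 he v hv)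

lemma Cl.mono {x : Edge n → Bool} {S T : Finset (Fin n)} (h : Cl x T) (hST : S ⊆ T) : Cl x S :=
  fun e he => h e (ein_mono hST he)

lemma cl_iff_on (g : Edge n → Fin m) (b : Edge n × Fin q → Bool) (t : Fin m → Fin q)
    (T : Finset (Fin n)) : Cl (pt g b t) T ↔ On b (prs g t T) := by
  simp only [Cl, On, prs, pt, mem_image]
  constructor
  · rintro h _ ⟨e, he, rfl⟩; exact h e he
  · intro h e he; exact h _ ⟨e, he, rfl⟩

lemma card_sdiff_le_prs (g : Edge n → Fin m) (t : Fin m → Fin q) (T : Finset (Fin n))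
    (F : Finset (Edge n × Fin q)) :
    (ein T \ F.image Prod.fst).card ≤ (prs g t T \ F).card := by
  refine card_le_card_of_injOn (fun e => (e, t (g e))) (fun e he => ?_) fun e _ e' _ h => ?_
  · have he' := mem_sdiff.1 (mem_coe.1 he)
    exact mem_coe.2 (mem_sdiff.2 ⟨mem_image_of_mem _ he'.1,
      fun hF => he'.2 (mem_image.2 ⟨_, hF, rfl⟩)⟩)
  · exact (Prod.ext_iff.1 h).1

lemma cl_of_isClique {x : Edge n → Bool} {T : Finset (Fin n)}
    (h : (graphOf x).IsClique (T : Set (Fin n))) : Cl x T := by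
  rintro ⟨e, hd⟩ he
  induction e using Sym2.ind with
  | _ u v =>
    have hu : u ∈ T := mem_ein.1 he u (by simp)
    have hv : v ∈ T := mem_ein.1 he v (by simp)
    have huv : u ≠ v := by simpa using hd
    have := h (mem_coe.2 hu) (mem_coe.2 hv) huv
    simp only [graphOf, SimpleGraph.fromEdgeSet_adj, Set.mem_ofPred_eq] at this
    obtain ⟨⟨_, h1⟩, _⟩ := this
    exact h1

lemma Bd.mono {τ : Type} {good : Finset τ} {lab : τ → Finset (Fin n)} {h h' k k' : ℕ} {β β' : ℝ}
    (hb : Bd good lab h k β) (hh : h' ≤ h) (hk : k ≤ k') (hβ : β ≤ β') : Bd good lab h' k' β' := by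
  intro H hH
  refine le_trans ?_ ((hb H (hH.trans hh)).trans hβ)
  exact_mod_cast card_le_card fun t ht =>
    mem_filter.2 ⟨(mem_filter.1 ht).1, hk.trans (mem_filter.1 ht).2⟩

end Pool.Agent.P.MP_7ffab6_lc.SD
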