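import Pool.Agent.P.MP_7ffab6_lc.SD.Base

/-! Statements of the steps. -/

set_option autoImplicit false

namespace Pool.Agent.P.MP_7ffab6_lc.SD

open Finset Filter

-- deps:
def S_UB : Prop := ∀ (P Θ : Type) [Fintype P] [DecidableEq P] (s : Finset Θ) (F : Θ → Finset P),
  (Set.ncard {b : P → Bool | ∃ θ ∈ s, On b (F θ)} : ℝ) ≤
    (∑ θ ∈ s, (1 / 2 : ℝ) ^ (F θ).card) * 2 ^ Fintype.card P

-- deps: UB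
def S_COVER : Prop := ∀ (P Θ Sg : Type) [Fintype P] [DecidableEq P] [Fintype Θ] [Fintype Sg]
  (Φ : Θ → Sg → Finset P) (y z : ℕ), 2 * Fintype.card Sg ≤ 2 ^ y →
  (Set.ncard {b : P → Bool | ¬ ∀ θ, ∃ F : Finset P, F.card ≤ 2 * z ∧
      ∀ σ, On b (Φ θ σ) → (Φ θ σ \ F).card ≤ 2 * y} : ℝ) ≤
    2 * Fintype.card Θ * (1 / 2 : ℝ) ^ z * 2 ^ Fintype.card P

-- deps: COVER
def S_C1 : Prop := ∀ (n m q : ℕ) (g : Edge n → Fin m) (PP : Finset (Finset (Fin m → Fin q)))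
  (h Λ y : ℕ), n * PP.card + 1 ≤ 2 ^ Λ → 2 * q ^ m ≤ 2 ^ y →
  (Set.ncard {b : Edge n × Fin q → Bool | ¬ C1 g b PP h (2 * (h * (Λ + 1))) (2 * y)} : ℝ) ≤
    2 * (1 / 2 : ℝ) ^ h * 2 ^ Fintype.card (Edge n × Fin q)

-- deps: COVER
def S_C2 : Prop := ∀ (n m q : ℕ) (g : Edge n → Fin m) (h K Λ y : ℕ), n + 1 ≤ 2 ^ Λ →
  2 * (q ^ m * (h + 1) ^ K) ≤ 2 ^ y →
  (Set.ncard {b : Edge n × Fin q → Bool | ¬ C2 g b h K (2 * (h * (Λ + 1))) (2 * y)} : ℝ) ≤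
    2 * (1 / 2 : ℝ) ^ h * 2 ^ Fintype.card (Edge n × Fin q)

-- deps:
def S_STEP : Prop := ∀ (n : ℕ) (F : Finset (Edge n)) (z Δ Δ' a y : ℕ), F.card ≤ z → 1 ≤ Δ →
  2 * z ≤ Δ * Δ' → 2 * y ≤ a * a → ∃ (Hv : Finset (Fin n)) (N : Fin n → Finset (Fin n)),
    Hv.card ≤ Δ' ∧ (∀ w, (N w).card ≤ Δ) ∧ ∀ T : Finset (Fin n), (ein T \ F).card ≤ y →
      T.card ≤ (T ∩ Hv).card + a ∨ ∃ w ∈ T, T.card ≤ (T ∩ N w).card + a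

-- deps: STEP
def S_RP1 : Prop := ∀ (n m q : ℕ) (g : Edge n → Fin m) (b : Edge n × Fin q → Bool)
  (PP : Finset (Finset (Fin m → Fin q))) (A : Fin n → Finset (Fin m → Fin q))
  (good : Finset (Fin m → Fin q)) (lab : (Fin m → Fin q) → Finset (Fin n)) (h K z y Δ Δ' a : ℕ),
  C1 g b PP h z y → (∀ u, A u ∈ PP) → (∀ t u, u ∈ lab t ↔ t ∈ A u) →
  (∀ t ∈ good, Cl (pt g b t) (lab t)) → 1 ≤ Δ → 2 * z ≤ Δ * Δ' → 2 * y ≤ a * a →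
  RP good lab h K Δ Δ' a

-- deps: STEP
def S_RP2 : Prop := ∀ (n m q : ℕ) (g : Edge n → Fin m) (b : Edge n × Fin q → Bool)
  (good : Finset (Fin m → Fin q)) (lab : (Fin m → Fin q) → Finset (Fin n)) (h K z y Δ Δ' a : ℕ),
  C2 g b h K z y → (∀ t ∈ good, Cl (pt g b t) (lab t)) → 1 ≤ Δ → 2 * z ≤ Δ * Δ' →
  2 * y ≤ a * a → RP good lab h K Δ Δ' a

-- deps:
def S_RND : Prop := ∀ (n : ℕ) (τ : Type) (good : Finset τ) (lab : τ → Finset (Fin n))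
  (h K Δ Δ' a k : ℕ) (β₁ β₂ : ℝ), RP good lab h K Δ Δ' a → k + a ≤ K → 0 ≤ β₂ →
  Bd good lab Δ' k β₁ → Bd good lab Δ k β₂ → Bd good lab h (k + a) (β₁ + h * β₂)

-- deps: RND
def S_CH : Prop := ∀ (n : ℕ) (τ : Type) (good : Finset τ) (lab : τ → Finset (Fin n)) (K k : ℕ)
  (β : ℝ), 0 ≤ β →
  (∀ R J l a : ℕ, 1 ≤ R → 1 ≤ l → (∀ j < J, RP good lab (R ^ (j + 1)) K l (R ^ j) a) →
    k + J * a ≤ K → Bd good lab l k β →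
    Bd good lab (R ^ J) (k + J * a) ((J + 1) * (R : ℝ) ^ J * β)) ∧
  ∀ (h a : ℕ → ℕ) (I : ℕ), (∀ i < I, RP good lab (h (i + 1)) K (h i) (h i) (a i)) →
    k + ∑ i ∈ range I, a i ≤ K → Bd good lab (h 0) k β →
    Bd good lab (h I) (k + ∑ i ∈ range I, a i) ((∏ i ∈ range I, ((h (i + 1) : ℝ) + 1)) * β)

-- deps:
def S_EIN : Prop := ∀ (n : ℕ) (T : Finset (Fin n)), (ein T).card = T.card.choose 2

-- deps: EIN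
def S_GEX : Prop := ∀ n m k ρ l : ℕ, m = 4 ^ ρ * l → 0 < l →
  n ^ k * 2 ^ m * 2 ^ k.choose 2 < 2 ^ (ρ * k.choose 2) → ∃ g : Edge n → Fin m, Gd g k l

-- deps: UB EIN
def S_BASE : Prop := ∀ (n m q k l : ℕ) (g : Edge n → Fin m), Gd g k l →
  (Set.ncard {b : Edge n × Fin q → Bool | ¬ ∀ T : Finset (Fin n), T.card = k →
      (Set.ncard {t : Fin m → Fin q | Cl (pt g b t) T} : ℝ) ≤ (1 / 2 : ℝ) ^ l * (q : ℝ) ^ m} : ℝ) ≤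
    (n : ℝ) ^ k * 2 ^ (q * m) * (1 / 2 : ℝ) ^ (q * k.choose 2 / 4) *
      2 ^ Fintype.card (Edge n × Fin q)

-- deps:
def S_BD0 : Prop := ∀ (n m q : ℕ) (g : Edge n → Fin m) (b : Edge n × Fin q → Bool)
  (good : Finset (Fin m → Fin q)) (lab : (Fin m → Fin q) → Finset (Fin n)) (h k : ℕ) (η : ℝ),
  0 ≤ η → (∀ T : Finset (Fin n), T.card = k →
    (Set.ncard {t : Fin m → Fin q | Cl (pt g b t) T} : ℝ) ≤ η) →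
  (∀ t ∈ good, Cl (pt g b t) (lab t)) → Bd good lab h k (2 ^ h * η)

-- deps:
def S_PAT : Prop := ∀ (τ : Type) [Fintype τ] [DecidableEq τ] (W : Submodule ℝ (τ → ℝ)) (d : ℕ),
  Module.finrank ℝ W ≤ d → ∃ PP : Finset (Finset τ), PP.card ≤ (Fintype.card τ + 1) ^ (d + 1) ∧
    ∀ w ∈ W, (univ.filter fun t => 1 / 2 ≤ w t) ∈ PP

-- deps:
def S_DIM : Prop := ∀ (m q D : ℕ) (x : ℝ), 0 < x → x ≤ 1 →
  (Module.finrank ℝ (Wd m q D) : ℝ) ≤ (1 / x) ^ D * (1 + x * q) ^ m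

-- deps:
def S_MEM : Prop := ∀ (n m q D : ℕ) (g : Edge n → Fin m) (b : Edge n × Fin q → Bool)
  (p : MvPolynomial (Edge n) ℝ), p.totalDegree ≤ D → (fun t => value p (pt g b t)) ∈ Wd m q D

-- deps:
def S_AVG : Prop := ∀ (n m q : ℕ) (g : Edge n → Fin m) (E : Set (Edge n → Bool))
  (Bad : Set (Edge n × Fin q → Bool)) (η δ : ℝ), 0 < q → 0 ≤ η →
  (∀ b ∉ Bad, (Set.ncard {t : Fin m → Fin q | pt g b t ∈ E} : ℝ) ≤ η * (q : ℝ) ^ m) →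
  (Bad.ncard : ℝ) ≤ δ * 2 ^ Fintype.card (Edge n × Fin q) →
  (E.ncard : ℝ) / Fintype.card (Edge n → Bool) ≤ η + δ

-- deps:
def S_N1 : Prop := (∀ β c : ℕ, ∀ᶠ K : ℕ in atTop,
    β * K * (K / 2) + c * K < (5 * β + 1) * (K / 2).choose 2) ∧
  (∀ G c : ℕ, 0 < G → ∀ᶠ K : ℕ in atTop, c * K * (2 ^ (K / G / 2) + 1) ≤ 2 ^ (K / G)) ∧
  ∀ c : ℕ, ∀ᶠ K : ℕ in atTop, 8 * (c * (Nat.sqrt (c * K) + 1)) ≤ K

-- deps: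
def S_N2 : Prop := (∀ c : ℕ, ∀ᶠ K : ℕ in atTop, (Nat.log 2 K + c) * (Nat.log 2 K + c) ≤ K ∧
    8 * ((Nat.log 2 K + c) * (Nat.sqrt (c * K * (Nat.log 2 K + c)) + 2)) ≤ K) ∧
  ∀ K I : ℕ, 8192 * 2 ^ I ≤ K → 8 * ∑ i ∈ range I, Nat.sqrt (8 * K * 2 ^ i) ≤ K

-- deps:
def S_N3 : Prop := ∀ G q M : ℕ, 0 < G → 0 < q → 0 < M → ∃ x c : ℝ, 0 < x ∧ x ≤ 1 ∧ 0 < c ∧
  ∀ K D : ℕ, 3 * G ≤ K → (D : ℝ) ≤ c * K →
    (1 / x) ^ D * (1 + x * q) ^ (M * K) ≤ 2 ^ (K / G / 2)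

/-- the numerical conditions used by the main assembly -/
structure Par (β A K : ℕ) (c x : ℝ) (m q ρ l r J a₁ B I d : ℕ) (a y : ℕ → ℕ) : Prop where
  k1 : 1 ≤ K
  p1 : m = 4 ^ ρ * l
  l0 : 0 < l
  q0 : 0 < q
  p2 : β * K * (K / 2) + m + (K / 2).choose 2 < ρ * (K / 2).choose 2
  p3 : β * K * (K / 2) + q * m + (A + 2) * K ≤ q * (K / 2).choose 2 / 4
  x0 : 0 < x
  x1 : x ≤ 1
  p4 : ∀ D : ℕ, (D : ℝ) ≤ c * K → (1 / x) ^ D * (1 + x * q) ^ m ≤ d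
  p5 : β * K + 1 + (q * m + 1) * (d + 1) + 1 ≤ 2 ^ r
  p6 : β * K ≤ r * J
  p7 : 4 * (q * m + 1) ≤ a₁ * a₁
  p8 : 4 * (β * K + 2) ≤ B
  p9 : 2 * r + 2 ≤ 2 ^ I
  p10 : ∀ i < I, 2 * (q ^ m * (B * 2 ^ 2 ^ (i + 1) + 1) ^ K) ≤ 2 ^ y i ∧ 4 * y i ≤ a i * a i
  p11 : K / 2 + ∑ i ∈ range I, a i + J * a₁ ≤ K
  p12 : (J + 1) * 2 ^ (r * J) * (∏ i ∈ range I, (B * 2 ^ 2 ^ (i + 1) + 1)) * 2 ^ (2 * B) *
    2 ^ ((A + 1) * K) ≤ 2 ^ l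
  p13 : 2 * (J + I) * 2 ^ ((A + 2) * K) ≤ 2 ^ B
  p14 : B ≤ 2 ^ r

-- deps: N1 N2 N3
def S_PAR : Prop := ∀ β A : ℕ, ∃ c : ℝ, 0 < c ∧ ∀ᶠ K : ℕ in atTop,
  ∃ (x : ℝ) (m q ρ l r J a₁ B I d : ℕ) (a y : ℕ → ℕ), Par β A K c x m q ρ l r J a₁ B I d a y

-- deps: RP1 RP2 CH BD0
def S_DET : Prop := ∀ (β A K : ℕ) (c x : ℝ) (m q ρ l r J a₁ B I d : ℕ) (a y : ℕ → ℕ),
  Par β A K c x m q ρ l r J a₁ B I d a y → ∀ n : ℕ, n ≤ 2 ^ (β * K) →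
  ∀ (g : Edge n → Fin m) (b : Edge n × Fin q → Bool) (PP : Finset (Finset (Fin m → Fin q)))
    (Ac : Fin n → Finset (Fin m → Fin q)) (good : Finset (Fin m → Fin q))
    (lab : (Fin m → Fin q) → Finset (Fin n)), (∀ u, Ac u ∈ PP) → (∀ t u, u ∈ lab t ↔ t ∈ Ac u) →
    (∀ t ∈ good, Cl (pt g b t) (lab t) ∧ K ≤ (lab t).card) →
    (∀ j < J, C1 g b PP ((2 ^ r) ^ (j + 1))
      (2 * ((2 ^ r) ^ (j + 1) * (β * K + 1 + (q * m + 1) * (d + 1) + 1))) (2 * (q * m + 1))) →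
    (∀ i < I, C2 g b (B * 2 ^ 2 ^ (i + 1)) K
      (2 * (B * 2 ^ 2 ^ (i + 1) * (β * K + 1 + 1))) (2 * y i)) →
    (∀ T : Finset (Fin n), T.card = K / 2 →
      (Set.ncard {t : Fin m → Fin q | Cl (pt g b t) T} : ℝ) ≤ (1 / 2 : ℝ) ^ l * (q : ℝ) ^ m) →
    (good.card : ℝ) ≤ (1 / 2 : ℝ) ^ ((A + 1) * K) * (q : ℝ) ^ m

-- deps: C1 C2 GEX BASE PAT DIM MEM AVG PAR DET
def S_MAIN : Prop := ∀ β A : ℕ, ∃ c : ℝ, 0 < c ∧ ∃ K0 : ℕ, ∀ K ≥ K0, ∀ n : ℕ, n ≤ 2 ^ (β * K) →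
  ∀ f : Fin n → MvPolynomial (Edge n) ℝ, (∀ i, ((f i).totalDegree : ℝ) ≤ c * K) →
    (Set.ncard {x : Edge n → Bool | (graphOf x).IsClique (output f x) ∧
      K ≤ (output f x).ncard} : ℝ) / Fintype.card (Edge n → Bool) ≤ (1 / 2 : ℝ) ^ (A * K)

-- deps: MAIN
def S_FIN : Prop := ∀ α A : ℝ, 0 < α → ∃ c : ℝ, 0 < c ∧ ∃ n0 : ℕ, ∀ n ≥ n0,
  ∀ f : Fin n → MvPolynomial (Edge n) ℝ, (∀ i, ((f i).totalDegree : ℝ) ≤ c * Real.logb 2 n) →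
    (Set.ncard {x : Edge n → Bool | (graphOf x).IsClique (output f x) ∧
      α * Real.logb 2 n ≤ (output f x).ncard} : ℝ) / Fintype.card (Edge n → Bool) ≤
      (n : ℝ) ^ (-A)

end Pool.Agent.P.MP_7ffab6_lc.SD
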