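import Pool.Agent.P.MP_7ffab6_lc.SD.Iface

/-! Step EIN. -/

set_option autoImplicit false
set_option linter.unusedSectionVars false

namespace Pool.Agent.P.MP_7ffab6_lc.SD

open Finset Filter

theorem p_EIN :
    S_EIN := by
  intro n T
  rw [← Sym2.card_image_offDiag, ← card_image_of_injective (ein T) Subtype.val_injective]
  congr 1
  ext z
  simp only [mem_image, ein, mem_filter, mem_univ, true_and, mem_offDiag]
  constructor
  · rintro ⟨⟨e, he⟩, h, rfl⟩
    induction e using Sym2.ind with
    | _ a b =>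
      exact ⟨(a, b), ⟨h a (by simp), h b (by simp), by simpa using he⟩, rfl⟩
  · rintro ⟨⟨a, b⟩, ⟨ha, hb, hab⟩, rfl⟩
    refine ⟨⟨s(a, b), by simpa using hab⟩, fun v hv => ?_, rfl⟩
    rcases Sym2.mem_iff.1 hv with rfl | rfl <;> assumption

end Pool.Agent.P.MP_7ffab6_lc.SD
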