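import Pool.Agent.P.MP_7ffab6_lc.SD.Iface

/-! Step N3. -/

set_option autoImplicit false
set_option linter.unusedSectionVars false

namespace Pool.Agent.P.MP_7ffab6_lc.SD

open Finset Filter

theorem p_N3 :
    S_N3 := by
  intro G q M hG hq hM
  have hG' : (1 : ℝ) ≤ G := by exact_mod_cast hG
  have hq' : (1 : ℝ) ≤ q := by exact_mod_cast hq
  have hM' : (1 : ℝ) ≤ M := by exact_mod_cast hM
  set y : ℝ := 16 * G * q * M with hy
  have hy1 : (16 : ℝ) ≤ y := by
    have h1 : (1 : ℝ) ≤ G * q := one_le_mul_of_one_le_of_one_le hG' hq'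
    have h2 : (1 : ℝ) ≤ G * q * M := one_le_mul_of_one_le_of_one_le h1 hM'
    rw [hy]; nlinarith
  have hy0 : 0 < y := by linarith
  have hl : 0 < Real.log y := Real.log_pos (by linarith)
  refine ⟨1 / y, 1 / (16 * G * Real.log y), by positivity, ?_, by positivity, ?_⟩
  · rw [div_le_one hy0]; linarith
  intro K D hK hD
  have hG0 : (0 : ℝ) < G := by linarith
  have h1 : (1 / (1 / y)) ^ D ≤ Real.exp (K / (16 * G)) := by
    rw [one_div_one_div]
    have : y ^ D = Real.exp (D * Real.log y) := by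
      rw [Real.exp_nat_mul, Real.exp_log hy0]
    rw [this]
    apply Real.exp_le_exp.2
    calc (D : ℝ) * Real.log y ≤ (1 / (16 * G * Real.log y) * K) * Real.log y :=
          mul_le_mul_of_nonneg_right hD hl.le
      _ = K / (16 * G) := by field_simp
  have h2 : (1 + 1 / y * q) ^ (M * K) ≤ Real.exp (K / (16 * G)) := by
    have h3 : 1 + 1 / y * q ≤ Real.exp (1 / y * q) := by
      have := Real.add_one_le_exp (1 / y * q); linarith
    calc (1 + 1 / y * q) ^ (M * K) ≤ (Real.exp (1 / y * q)) ^ (M * K) :=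
          pow_le_pow_left₀ (by positivity) h3 _
      _ = Real.exp (((M * K : ℕ) : ℝ) * (1 / y * q)) := by rw [Real.exp_nat_mul]
      _ = Real.exp (K / (16 * G)) := by
          congr 1
          push_cast
          rw [hy]
          field_simp
  obtain ⟨s, hs⟩ : ∃ s, s = K / G / 2 := ⟨_, rfl⟩
  have hr3 : 3 ≤ K / G := (Nat.le_div_iff_mul_le hG).2 hK
  have hs1 : 1 ≤ s := by omega
  have hKr : K < G * (K / G + 1) := Nat.lt_mul_div_succ K hG
  have hK4 : K ≤ G * (4 * s) := by
    have : K / G + 1 ≤ 4 * s := by omega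
    exact hKr.le.trans (Nat.mul_le_mul_left G this)
  have hK4' : (K : ℝ) ≤ G * (4 * s) := by exact_mod_cast hK4
  have h4 : (K : ℝ) / (16 * G) ≤ s / 4 := by
    rw [div_le_iff₀ (by positivity)]
    nlinarith
  have hs0 : (0 : ℝ) ≤ s := by positivity
  rw [← hs]
  calc (1 / (1 / y)) ^ D * (1 + 1 / y * q) ^ (M * K)
      ≤ Real.exp (K / (16 * G)) * Real.exp (K / (16 * G)) :=
        mul_le_mul h1 h2 (by positivity) (by positivity)
    _ = Real.exp (K / (16 * G) + K / (16 * G)) := (Real.exp_add _ _).symm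
    _ ≤ Real.exp (s * Real.log 2) := by
        apply Real.exp_le_exp.2
        have := Real.log_two_gt_d9
        nlinarith
    _ = 2 ^ s := by rw [Real.exp_nat_mul, Real.exp_log (by norm_num)]

end Pool.Agent.P.MP_7ffab6_lc.SD
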