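import Pool.Agent.P.MP_7ffab6_lc.SD.Iface

/-! Step UB. -/

set_option autoImplicit false
set_option linter.unusedSectionVars false

namespace Pool.Agent.P.MP_7ffab6_lc.SD

open Finset Filter

namespace UBx

lemma one (P : Type) [Fintype P] [DecidableEq P] (F : Finset P) :
    (Set.ncard {b : P → Bool | On b F} : ℝ) = (1 / 2 : ℝ) ^ F.card * 2 ^ Fintype.card P := by
  classical
  have h1 : {b : P → Bool | On b F} =
      ((Fintype.piFinset fun p : P => if p ∈ F then ({true} : Finset Bool) else univ :
        Finset (P → Bool)) : Set (P → Bool)) := by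
    ext b
    simp only [On, Set.mem_ofPred_eq, mem_coe, Fintype.mem_piFinset]
    constructor
    · intro h p
      by_cases hp : p ∈ F
      · simp [hp, h p hp]
      · simp [hp]
    · intro h p hp
      simpa [hp] using h p
  rw [h1, Set.ncard_coe_finset, Fintype.card_piFinset]
  push_cast
  have h2 : ∀ p : P, (((if p ∈ F then ({true} : Finset Bool) else univ).card : ℕ) : ℝ) =
      (if p ∈ F then (1 / 2 : ℝ) else 1) * 2 := by
    intro p
    by_cases hp : p ∈ F <;> simp [hp]
  rw [prod_congr rfl fun p _ => h2 p, prod_mul_distrib, prod_ite_mem, univ_inter, prod_const,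
    prod_const, card_univ]

end UBx

theorem p_UB :
    S_UB := by
  intro P Θ _ _ s F
  classical
  induction s using Finset.induction_on with
  | empty => simp
  | insert θ s hθ ih =>
    have h1 : {b : P → Bool | ∃ θ' ∈ insert θ s, On b (F θ')} =
        {b : P → Bool | On b (F θ)} ∪ {b : P → Bool | ∃ θ' ∈ s, On b (F θ')} := by
      ext b
      simp
    rw [h1, sum_insert hθ, add_mul, ← UBx.one P (F θ)]
    have h2 := Set.ncard_union_le {b : P → Bool | On b (F θ)}
      {b : P → Bool | ∃ θ' ∈ s, On b (F θ')}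
    have h3 : (({b : P → Bool | On b (F θ)} ∪ {b : P → Bool | ∃ θ' ∈ s, On b (F θ')}).ncard : ℝ) ≤
        ({b : P → Bool | On b (F θ)}.ncard : ℝ) +
          ({b : P → Bool | ∃ θ' ∈ s, On b (F θ')}.ncard : ℝ) := by exact_mod_cast h2
    linarith

end Pool.Agent.P.MP_7ffab6_lc.SD
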